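import Pool.Agent.V7H4.PD.Gc

/-!
# Octic fields: the group theory

`G` is a finite group with a central involution `c`, acting on the set `X` of the eight embeddings of
an octic CM field, and on the set `Y` of the four embeddings of the real subfield, which has one
nontrivial automorphism `st`.
-/

set_option autoImplicit false

open scoped Classical

namespace Pool.Agent.V7H4.OC

open Pool.Agent.Q11.CZ Pool.Agent.N770.CP Pool.Agent.V7H4.CT Pool.Agent.V7H4.PD

variable {G : Type} [Group G] {X Y : Type} [MulAction G X] [MulAction G Y] {c : G}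

/-- the action on the embeddings of a quartic field with one nontrivial automorphism -/
structure Quart (c : G) (r : X → Y) (st : Y → Y) : Prop where
  eqv : ∀ (g : G) (x : X), r (g • x) = g • r x
  eq : ∀ x y : X, r x = r y ↔ y = x ∨ y = c • x
  st_smul : ∀ (g : G) (y : Y), st (g • y) = g • st y
  st_st : ∀ y, st (st y) = y
  st_ne : ∀ y, st y ≠ y
  trans : ∀ y z : Y, ∃ g : G, g • y = z
  move : ∀ y z : Y, z ≠ y → z ≠ st y → ∃ g : G, g • y = y ∧ g • z = st z
  four : ∀ y z w : Y, z ≠ y → z ≠ st y → w = y ∨ w = st y ∨ w = z ∨ w = st z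

variable {r : X → Y} {st : Y → Y}

lemma Quart.c_smul (h : Quart c r st) (x : X) : r (c • x) = r x :=
  ((h.eq x (c • x)).2 (Or.inr rfl)).symm

lemma Quart.surj (h : Quart c r st) (x : X) (y : Y) : ∃ z : X, r z = y := by
  obtain ⟨g, hg⟩ := h.trans (r x) y
  exact ⟨g • x, by rw [h.eqv, hg]⟩

/-- opposite points -/
def Opp (r : X → Y) (st : Y → Y) (x y : X) : Prop := r y = st (r x)

/-- adjacent points -/
def Adj (r : X → Y) (st : Y → Y) (x y : X) : Prop := r y ≠ r x ∧ r y ≠ st (r x)

lemma Quart.opp_symm (h : Quart c r st) {x y : X} (hxy : Opp r st x y) : Opp r st y x := by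
  unfold Opp at *
  rw [hxy, h.st_st]

lemma Quart.adj_symm (h : Quart c r st) {x y : X} (hxy : Adj r st x y) : Adj r st y x := by
  refine ⟨fun h1 => hxy.1 h1.symm, fun h1 => hxy.2 ?_⟩
  rw [h1, h.st_st]

lemma Quart.adj_smul (h : Quart c r st) (k : G) (x y : X) :
    Adj r st (k • x) (k • y) ↔ Adj r st x y := by
  unfold Adj
  rw [h.eqv, h.eqv, h.st_smul, Ne, smul_left_cancel_iff, Ne, smul_left_cancel_iff]

lemma Quart.adj_right (h : Quart c r st) (x y : X) : Adj r st x (c • y) ↔ Adj r st x y := by
  unfold Adj
  rw [h.c_smul]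

lemma Quart.adj_left (h : Quart c r st) (x y : X) : Adj r st (c • x) y ↔ Adj r st x y := by
  unfold Adj
  rw [h.c_smul]

lemma Quart.opp_smul (h : Quart c r st) {x y : X} (hxy : Opp r st x y) (k : G) :
    Opp r st (k • x) (k • y) := by
  unfold Opp at *
  rw [h.eqv, h.eqv, h.st_smul, hxy]

/-- all pairs of adjacent points are equivalent, up to signs -/
lemma Quart.adj_trans (h : Quart c r st) {x y x' y' : X} (h1 : Adj r st x y)
    (h2 : Adj r st x' y') :
    ∃ g : G, (g • x = x' ∨ g • x = c • x') ∧ (g • y = y' ∨ g • y = c • y') := by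
  obtain ⟨g, hg⟩ := h.trans (r x) (r x')
  have h3 : g • r y ≠ r x' := by
    rw [← hg]
    exact fun h4 => h1.1 (smul_left_cancel g h4)
  have h4 : g • r y ≠ st (r x') := by
    rw [← hg, h.st_smul]
    exact fun h4 => h1.2 (smul_left_cancel g h4)
  have hfin : ∀ k : G, k • r x = r x' → k • r y = r y' →
      ∃ g : G, (g • x = x' ∨ g • x = c • x') ∧ (g • y = y' ∨ g • y = c • y') := by
    intro k e1 e2
    refine ⟨k, (h.eq x' (k • x)).1 ?_, (h.eq y' (k • y)).1 ?_⟩
    · rw [h.eqv, e1]
    · rw [h.eqv, e2]
  rcases h.four (r x') (g • r y) (r y') h3 h4 with h5 | h5 | h5 | h5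
  · exact absurd h5 h2.1
  · exact absurd h5 h2.2
  · exact hfin g hg h5.symm
  · obtain ⟨k, hk1, hk2⟩ := h.move (r x') (g • r y) h3 h4
    refine hfin (k * g) ?_ ?_
    · rw [mul_smul, hg, hk1]
    · rw [mul_smul, hk2, h5]

lemma Quart.exists_sign (h : Quart c r st) {x y x' y' : X} (h1 : Adj r st x y)
    (h2 : Adj r st x' y') :
    ∃ ε : ℤ, ε * ε = 1 ∧ ∀ F : X → X → ℤ, InvOdd c F → F x' y' = ε * F x y := by
  obtain ⟨g, h3 | h3, h4 | h4⟩ := h.adj_trans h1 h2
  · refine ⟨1, by norm_num, fun F hF => ?_⟩
    rw [← hF.inv g x y, h3, h4, one_mul]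
  · refine ⟨-1, by norm_num, fun F hF => ?_⟩
    rw [← hF.inv g x y, h3, h4, hF.right]
    ring
  · refine ⟨-1, by norm_num, fun F hF => ?_⟩
    rw [← hF.inv g x y, h3, h4, hF.left]
    ring
  · refine ⟨1, by norm_num, fun F hF => ?_⟩
    rw [← hF.inv g x y, h3, h4, hF.left, hF.right]
    ring

/-- a sign on the adjacent pairs -/
structure ASgn (c : G) (r : X → Y) (st : Y → Y) (S : X → X → ℤ) : Prop where
  io : InvOdd c S
  zero : ∀ x y : X, ¬ Adj r st x y → S x y = 0
  one : ∀ x y : X, Adj r st x y → S x y * S x y = 1

lemma Quart.exists_mul (h : Quart c r st) {S : X → X → ℤ} (hS : ASgn c r st S)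
    {F : X → X → ℤ} (hF : InvOdd c F) {x y : X} (hxy : Adj r st x y) :
    ∀ x' y' : X, Adj r st x' y' → F x' y' = (F x y * S x y) * S x' y' := by
  intro x' y' h'
  obtain ⟨ε, h3, h4⟩ := h.exists_sign hxy h'
  rw [h4 F hF, h4 S hS.io]
  have h5 := hS.one x y hxy
  linear_combination (-(F x y * ε)) * h5

variable [Fintype G]

/-- the differences vanish on adjacent pairs, or there is a sign -/
theorem Quart.dichotomy (h : Quart c r st) (hc : ∀ g, c * g = g * c) (hc2 : c * c = 1) :
    (∀ (x y : X) (g : G), Adj r st x y → D c x y g = 0) ∨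
      ∃ S : X → X → ℤ, ASgn c r st S ∧ ∃ s : G → ℤ, ∀ (x y : X) (g : G), Adj r st x y →
        D c x y g = s g * S x y := by
  by_cases h0 : ∀ (x y : X) (g : G), Adj r st x y → D c x y g = 0
  · exact Or.inl h0
  right
  push Not at h0
  obtain ⟨x0, y0, g0, hxy, hne⟩ := h0
  have hval : ∀ x y : X, Adj r st x y →
      D c x y g0 = D c x0 y0 g0 ∨ D c x y g0 = -D c x0 y0 g0 := by
    intro x y h'
    obtain ⟨ε, h3, h4⟩ := h.exists_sign hxy h'
    rw [h4 _ (D_invOdd hc hc2 g0)]
    rcases pm_one h3 with h6 | h6
    · left
      rw [h6, one_mul]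
    · right
      rw [h6]
      ring
  set a := D c x0 y0 g0 with ha
  have hna : -a ≠ a := fun h => hne (by linarith)
  set S : X → X → ℤ := fun x y => if Adj r st x y then (if D c x y g0 = a then 1 else -1) else 0
    with hS
  have hSgn : ASgn c r st S := by
    refine ⟨⟨?_, ?_, ?_⟩, ?_, ?_⟩
    · intro k x y
      simp only [hS, h.adj_smul, D_smul hc]
    · intro x y
      simp only [hS, h.adj_right, D_right hc2]
      split_ifs with h1 h3 h4 h5
      · exfalso
        exact hna (by linarith)
      · rfl
      · ring
      · exfalso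
        rcases hval x y h1 with h6 | h6
        · exact h5 h6
        · exact h3 (by linarith)
      · ring
    · intro x y
      simp only [hS, h.adj_left, D_left hc hc2]
      split_ifs with h1 h3 h4 h5
      · exfalso
        exact hna (by linarith)
      · rfl
      · ring
      · exfalso
        rcases hval x y h1 with h6 | h6
        · exact h5 h6
        · exact h3 (by linarith)
      · ring
    · intro x y h'
      simp only [hS, if_neg h']
    · intro x y h'
      simp only [hS, if_pos h']
      split_ifs <;> norm_num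
  refine ⟨S, hSgn, fun g => D c x0 y0 g * S x0 y0, fun x y g h' => ?_⟩
  exact h.exists_mul hSgn (D_invOdd hc hc2 g) hxy x y h'

/-- the differences as sums -/
lemma D_eq_sum (hfree : ∀ x : X, c • x ≠ x) (x y : X) (g : G) :
    D c x y g = ∑ k : G, uu c y ((k⁻¹ * g * k) • x) := by
  have h1 : ∀ k : G, uu c y ((k⁻¹ * g * k) • x) =
      (if (k⁻¹ * g * k) • x = y then 1 else 0) - (if (k⁻¹ * g * k) • x = c • y then 1 else 0) := by
    intro k
    by_cases h2 : (k⁻¹ * g * k) • x = y
    · rw [h2, uu_self hfree, if_pos rfl, if_neg (hfree y).symm, sub_zero]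
    by_cases h3 : (k⁻¹ * g * k) • x = c • y
    · rw [h3, uu_c hfree, if_pos rfl, if_neg (hfree y), zero_sub]
    rw [uu_of_ne h2 h3, if_neg h2, if_neg h3, sub_zero]
  rw [Finset.sum_congr rfl fun k _ => h1 k, Finset.sum_sub_distrib, Finset.sum_boole,
    Finset.sum_boole]
  rfl

/-- **Opposite pairs.** -/
theorem Quart.opp_zpowers (h : Quart c r st) (hc : ∀ g, c * g = g * c) (hc2 : c * c = 1)
    (hfree : ∀ x : X, c • x ≠ x) {x y : X} (hxy : Opp r st x y) {g g' : G}
    (hgg : Subgroup.zpowers g = Subgroup.zpowers g') :
    D c x y g + D c y x g = D c x y g' + D c y x g' := by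
  obtain ⟨u, hu⟩ := exists_unit hgg
  obtain ⟨v, hv⟩ := exists_unit hgg.symm
  set j := (u : ZMod (Nat.card G)).val with hj
  set i := (v : ZMod (Nat.card G)).val with hi
  have heven : 2 ∣ Nat.card G := by
    have h1 : orderOf c = 2 := by
      rw [orderOf_eq_prime_iff]
      refine ⟨by rw [pow_two, hc2], ?_⟩
      rintro rfl
      exact hfree x (one_smul _ x)
    rw [← h1]
    exact orderOf_dvd_natCard c
  have hodd : ∀ w : (ZMod (Nat.card G))ˣ, Odd (w : ZMod (Nat.card G)).val := by
    intro w
    rw [← Nat.not_even_iff_odd, even_iff_two_dvd]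
    intro h1
    have h2 := Nat.dvd_gcd h1 heven
    rw [ZMod.val_coe_unit_coprime w] at h2
    exact absurd h2 (by norm_num)
  have hjo : Odd j := hodd u
  have hio : Odd i := hodd v
  have hyx := h.opp_symm hxy
  have hcc : ∀ z : X, c • c • z = z := fun z => by rw [← mul_smul, hc2, one_smul]
  -- an element which exchanges the two orbits of `c`
  have swap : ∀ k : G, r (k • x) = r y → r (k • y) = r x := by
    intro k hk
    rw [h.eqv] at hk ⊢
    have h1 : r y = st (r x) := hxy
    rw [h1, ← h.st_smul, hk, h1, h.st_st]
  have unswap : ∀ k : G, r (k • y) = r x → r (k • x) = r y := by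
    intro k hk
    rw [h.eqv] at hk ⊢
    have h1 : r x = st (r y) := hyx
    rw [h1, ← h.st_smul, hk, h1, h.st_st]
  have swapodd : ∀ (k : G) (m : ℕ), Odd m → r (k • x) = r y → r (k ^ m • x) = r y := by
    rintro k m ⟨n, rfl⟩ hk
    have h2 : ∀ n : ℕ, r (k ^ (2 * n) • x) = r x := by
      intro n
      induction n with
      | zero => simp
      | succ n ih =>
        have h3 : k ^ (2 * (n + 1)) • x = k • k • k ^ (2 * n) • x := by
          rw [show 2 * (n + 1) = 2 * n + 1 + 1 by ring, pow_succ', pow_succ', mul_smul, mul_smul]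
        rw [h3, h.eqv, h.eqv, ih, ← h.eqv, hk, ← h.eqv, swap k hk]
    rw [pow_succ', mul_smul, h.eqv, h2, ← h.eqv, hk]
  -- the pointwise statement
  have key : ∀ (k k' : G), k' = k ^ j → k = k' ^ i →
      uu c y (k • x) + uu c x (k • y) = uu c y (k' • x) + uu c x (k' • y) := by
    intro k k' e1 e2
    by_cases hk : r (k • x) = r y
    · have hk2 := swap k hk
      obtain ⟨n, hn⟩ := hjo
      have hpow : ∀ (a b : Bool), k • x = (if a then y else c • y) →
          k • y = (if b then x else c • x) → ∀ n : ℕ,
            k ^ (2 * n) • x = (if a = b ∨ Even n then x else c • x) ∧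
            k ^ (2 * n) • y = (if a = b ∨ Even n then y else c • y) := by
        intro a b ha hb n
        induction n with
        | zero => simp
        | succ n ih =>
          have h3 : ∀ z : X, k ^ (2 * (n + 1)) • z = k • k • k ^ (2 * n) • z := by
            intro z
            rw [show 2 * (n + 1) = 2 * n + 1 + 1 by ring, pow_succ', pow_succ', mul_smul, mul_smul]
          rw [h3, h3, ih.1, ih.2]
          by_cases hab : a = b
          · subst hab
            simp only [true_or, if_true]
            cases a
            · simp only [Bool.false_eq_true, if_false] at ha hb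
              rw [ha, hb, ← c_smul_comm hc, ← c_smul_comm hc, ha, hb, hcc, hcc]
              exact ⟨rfl, rfl⟩
            · simp only [if_true] at ha hb
              rw [ha, hb, ha]
              exact ⟨rfl, rfl⟩
          · simp only [hab, false_or]
            have h4 : k • k • x = c • x ∧ k • k • y = c • y := by
              cases a <;> cases b
              · exact absurd rfl hab
              · simp only [Bool.false_eq_true, if_false, if_true] at ha hb
                rw [ha, hb, ← c_smul_comm hc, hb, ha]
                exact ⟨rfl, rfl⟩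
              · simp only [Bool.false_eq_true, if_false, if_true] at ha hb
                rw [ha, hb, ← c_smul_comm hc, ha]
                exact ⟨rfl, rfl⟩
              · exact absurd rfl hab
            by_cases hne : Even n
            · have hne' : ¬ Even (n + 1) := by
                rw [Nat.not_even_iff_odd]
                exact hne.add_one
              rw [if_pos hne, if_neg hne', if_pos hne, if_neg hne']
              exact h4
            · have hne' : Even (n + 1) := by
                rw [Nat.not_even_iff_odd] at hne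
                exact hne.add_one
              rw [if_neg hne, if_pos hne', if_neg hne, if_pos hne', ← c_smul_comm hc,
                ← c_smul_comm hc, ← c_smul_comm hc, ← c_smul_comm hc, h4.1, h4.2, hcc, hcc]
              exact ⟨rfl, rfl⟩
      have hval : ∀ (a b : Bool), k • x = (if a then y else c • y) →
          k • y = (if b then x else c • x) →
            uu c y (k • x) + uu c x (k • y) = uu c y (k' • x) + uu c x (k' • y) := by
        intro a b ha hb
        obtain ⟨h5, h6⟩ := hpow a b ha hb n
        have e3 : ∀ z : X, k' • z = k • k ^ (2 * n) • z := by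
          intro z
          rw [e1, hn, pow_succ', mul_smul]
        rw [e3, e3, h5, h6]
        by_cases hab : a = b ∨ Even n
        · rw [if_pos hab, if_pos hab]
        · rw [if_neg hab, if_neg hab, ← c_smul_comm hc, ← c_smul_comm hc,
            uu_neg hc2 hfree, uu_neg hc2 hfree]
          push Not at hab
          have hab' := hab.1
          rw [ha, hb]
          cases a <;> cases b
          · exact absurd rfl hab'
          · simp only [Bool.false_eq_true, if_false, if_true]
            rw [uu_c hfree, uu_self hfree]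
            norm_num
          · simp only [Bool.false_eq_true, if_false, if_true]
            rw [uu_c hfree, uu_self hfree]
            norm_num
          · exact absurd rfl hab'
      rcases (h.eq y (k • x)).1 hk.symm with h7 | h7 <;>
        rcases (h.eq x (k • y)).1 hk2.symm with h8 | h8
      · exact hval true true h7 h8
      · exact hval true false h7 h8
      · exact hval false true h7 h8
      · exact hval false false h7 h8
    · have hk2 : r (k • y) ≠ r x := fun h1 => hk (unswap k h1)
      have hk3 : r (k' • x) ≠ r y := by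
        intro h1
        apply hk
        rw [e2]
        exact swapodd k' i hio h1
      have hk4 : r (k' • y) ≠ r x := fun h1 => hk3 (unswap k' h1)
      have hz : ∀ a b : X, r a ≠ r b → uu c b a = 0 := by
        intro a b hab
        refine uu_of_ne (fun h1 => hab ?_) (fun h1 => hab ?_)
        · rw [h1]
        · rw [h1, h.c_smul]
      rw [hz _ _ hk, hz _ _ hk2, hz _ _ hk3, hz _ _ hk4]
  rw [D_eq_sum hfree, D_eq_sum hfree, D_eq_sum hfree, D_eq_sum hfree, ← Finset.sum_add_distrib,
    ← Finset.sum_add_distrib]
  refine Finset.sum_congr rfl fun m _ => key _ _ ?_ ?_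
  · rw [hu]
    have := conj_pow (i := j) (a := m⁻¹) (b := g)
    rw [inv_inv] at this
    exact this.symm
  · conv_lhs => rw [hv]
    have := conj_pow (i := i) (a := m⁻¹) (b := g')
    rw [inv_inv] at this
    exact this.symm

end Pool.Agent.V7H4.OC
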