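import Pool.Agent.V7H4.OC.A

/-!
# Octic fields: the two cases
-/

set_option autoImplicit false

open scoped Classical

namespace Pool.Agent.V7H4.OC

open Pool.Agent.Q11.CZ Pool.Agent.N770.CP Pool.Agent.V7H4.CT Pool.Agent.V7H4.PD

/-- the function of the octagon -/
def ff : ZMod 8 → ℤ := ![0, 1, 0, -1, 0, -1, 0, 1]

variable {G : Type} [Group G] {X : Type} [MulAction G X] {c : G}

/-- the eight points -/
def vv (c : G) (x0 y0 x1 y1 : X) : ZMod 8 → X :=
  ![x0, y0, x1, c • y1, c • x0, c • y0, c • x1, y1]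

lemma vv_four (hc2 : c * c = 1) (x0 y0 x1 y1 : X) (i : ZMod 8) :
    vv c x0 y0 x1 y1 (i + 4) = c • vv c x0 y0 x1 y1 i := by
  have hcc : ∀ z : X, c • c • z = z := fun z => by rw [← mul_smul, hc2, one_smul]
  fin_cases i
  · rfl
  · rfl
  · rfl
  · exact (hcc y1).symm
  · exact (hcc x0).symm
  · exact (hcc y0).symm
  · exact (hcc x1).symm
  · rfl

lemma ff_four (i : ZMod 8) : ff (i + 4) = -ff i := by
  revert i
  decide

lemma cases_four (i : ZMod 8) : (i = 0 ∨ i = 1 ∨ i = 2 ∨ i = 3) ∨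
    (i = 0 + 4 ∨ i = 1 + 4 ∨ i = 2 + 4 ∨ i = 3 + 4) := by
  revert i
  decide

lemma table {S : X → X → ℤ} (hS : InvOdd c S) (hc2 : c * c = 1)
    (hsym : ∀ x y, S y x = S x y) {x0 y0 x1 y1 : X}
    (h00 : S x0 y0 = 1) (h10 : S x1 y0 = 1) (h01 : S x0 y1 = 1) (h11 : S x1 y1 = -1)
    (a0 : S x0 x0 = 0) (a1 : S x0 x1 = 0) (a2 : S x1 x1 = 0)
    (b0 : S y0 y0 = 0) (b1 : S y0 y1 = 0) (b2 : S y1 y1 = 0) (i j : ZMod 8) :
    S (vv c x0 y0 x1 y1 i) (vv c x0 y0 x1 y1 j) = ff (j - i) := by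
  have e0 : vv c x0 y0 x1 y1 0 = x0 := rfl
  have e1 : vv c x0 y0 x1 y1 1 = y0 := rfl
  have e2 : vv c x0 y0 x1 y1 2 = x1 := rfl
  have e3 : vv c x0 y0 x1 y1 3 = c • y1 := rfl
  have base : ∀ i j : ZMod 8, (i = 0 ∨ i = 1 ∨ i = 2 ∨ i = 3) →
      (j = 0 ∨ j = 1 ∨ j = 2 ∨ j = 3) →
      S (vv c x0 y0 x1 y1 i) (vv c x0 y0 x1 y1 j) = ff (j - i) := by
    intro i j hi hj
    rcases hi with rfl | rfl | rfl | rfl <;> rcases hj with rfl | rfl | rfl | rfl
    · rw [e0, a0]; rfl
    · rw [e0, e1, h00]; rfl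
    · rw [e0, e2, a1]; rfl
    · rw [e0, e3, hS.right, h01]; rfl
    · rw [e1, e0, hsym, h00]; rfl
    · rw [e1, b0]; rfl
    · rw [e1, e2, hsym, h10]; rfl
    · rw [e1, e3, hS.right, b1]; rfl
    · rw [e2, e0, hsym, a1]; rfl
    · rw [e2, e1, h10]; rfl
    · rw [e2, a2]; rfl
    · rw [e2, e3, hS.right, h11]; rfl
    · rw [e3, e0, hS.left, hsym, h01]; rfl
    · rw [e3, e1, hS.left, hsym, b1]; rfl
    · rw [e3, e2, hS.left, hsym, h11]; rfl
    · rw [e3, hS.left, hS.right, b2]; rfl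
  have left4 : ∀ i j : ZMod 8, S (vv c x0 y0 x1 y1 i) (vv c x0 y0 x1 y1 j) = ff (j - i) →
      S (vv c x0 y0 x1 y1 (i + 4)) (vv c x0 y0 x1 y1 j) = ff (j - (i + 4)) := by
    intro i j h
    rw [vv_four hc2, hS.left, h]
    have h1 : j - i = j - (i + 4) + 4 := by ring
    rw [h1, ff_four, neg_neg]
  have right4 : ∀ i j : ZMod 8, S (vv c x0 y0 x1 y1 i) (vv c x0 y0 x1 y1 j) = ff (j - i) →
      S (vv c x0 y0 x1 y1 i) (vv c x0 y0 x1 y1 (j + 4)) = ff (j + 4 - i) := by
    intro i j h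
    rw [vv_four hc2, hS.right, h]
    have h1 : j + 4 - i = (j - i) + 4 := by ring
    rw [h1, ff_four]
  have half' : ∀ i j : ZMod 8, (i = 0 ∨ i = 1 ∨ i = 2 ∨ i = 3) →
      S (vv c x0 y0 x1 y1 i) (vv c x0 y0 x1 y1 j) = ff (j - i) := by
    intro i j hi
    rcases cases_four j with h | h
    · exact base i j hi h
    · rcases h with h | h | h | h
      · rw [h]; exact right4 i 0 (base i 0 hi (Or.inl rfl))
      · rw [h]; exact right4 i 1 (base i 1 hi (Or.inr (Or.inl rfl)))
      · rw [h]; exact right4 i 2 (base i 2 hi (Or.inr (Or.inr (Or.inl rfl))))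
      · rw [h]; exact right4 i 3 (base i 3 hi (Or.inr (Or.inr (Or.inr rfl))))
  rcases cases_four i with h | h
  · exact half' i j h
  · rcases h with h | h | h | h
    · rw [h]; exact left4 0 j (half' 0 j (Or.inl rfl))
    · rw [h]; exact left4 1 j (half' 1 j (Or.inr (Or.inl rfl)))
    · rw [h]; exact left4 2 j (half' 2 j (Or.inr (Or.inr (Or.inl rfl))))
    · rw [h]; exact left4 3 j (half' 3 j (Or.inr (Or.inr (Or.inr rfl))))

/-- the automorphisms of the octagon -/
lemma octagon_aut (π : ZMod 8 → ZMod 8) (hinj : Function.Injective π)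
    (hf : ∀ i j, ff (π j - π i) = ff (j - i)) :
    ∃ b, (∀ i, π i = i + b) ∨ (∀ i, π i = b - i) := by
  have h1 : ∀ t : ZMod 8, ff t = 1 → t = 1 ∨ t = -1 := by decide
  have hδ : ∀ i, π (i + 1) - π i = 1 ∨ π (i + 1) - π i = -1 := by
    intro i
    apply h1
    rw [hf]
    have : i + 1 - i = 1 := by ring
    rw [this]
    rfl
  have hstep : ∀ i, π (i + 1 + 1) - π (i + 1) = π (i + 1) - π i := by
    intro i
    rcases hδ i with h2 | h2 <;> rcases hδ (i + 1) with h3 | h3
    · rw [h2, h3]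
    · exfalso
      have h4 : π (i + 1 + 1) = π i := by linear_combination h2 + h3
      have h5 := hinj h4
      have h6 : (2 : ZMod 8) = 0 := by linear_combination h5
      exact absurd h6 (by decide)
    · exfalso
      have h4 : π (i + 1 + 1) = π i := by linear_combination h2 + h3
      have h5 := hinj h4
      have h6 : (2 : ZMod 8) = 0 := by linear_combination h5
      exact absurd h6 (by decide)
    · rw [h2, h3]
  have hconst : ∀ n : ℕ, π ((n : ZMod 8) + 1) - π n = π 1 - π 0 := by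
    intro n
    induction n with
    | zero => simp
    | succ n ih =>
      push_cast
      rw [hstep, ih]
  have hlin : ∀ n : ℕ, π n = π 0 + n * (π 1 - π 0) := by
    intro n
    induction n with
    | zero => simp
    | succ n ih =>
      have := hconst n
      push_cast
      linear_combination this + ih
  have hall : ∀ i : ZMod 8, π i = π 0 + i * (π 1 - π 0) := by
    intro i
    have := hlin i.val
    rwa [ZMod.natCast_zmod_val] at this
  refine ⟨π 0, ?_⟩
  have h2 := hδ 0
  rw [zero_add] at h2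
  rcases h2 with h2 | h2
  · left
    intro i
    rw [hall i, h2]
    ring
  · right
    intro i
    rw [hall i, h2]
    ring

/-- the points form an octagon -/
structure Octagon (c : G) (v : ZMod 8 → X) : Prop where
  bij : Function.Bijective v
  four : ∀ i, v (i + 4) = c • v i
  act : ∀ g : G, ∃ b, (∀ i, g • v i = v (i + b)) ∨ (∀ i, g • v i = v (b - i))

variable {Y : Type} [MulAction G Y] {r : X → Y} {st : Y → Y}

/-- **The two cases of a symmetric sign.** -/
theorem Quart.two_cases (h : Quart c r st) (hc2 : c * c = 1)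
    (hfree : ∀ x : X, c • x ≠ x) {S : X → X → ℤ} (hS : ASgn c r st S)
    (hsym : ∀ x y, S y x = S x y) {x y : X} (hxy : Adj r st x y) :
    (∃ κ : X → ℤ, Kap G c κ ∧ ∀ z w, Adj r st z w → S z w = κ z * κ w) ∨
      ∃ v : ZMod 8 → X, Octagon c v ∧ Adj r st (v 0) (v 1) := by
  have hcc : ∀ z : X, c • c • z = z := fun z => by rw [← mul_smul, hc2, one_smul]
  -- normalised points
  obtain ⟨x0, rfl⟩ : ∃ x0, x0 = x := ⟨x, rfl⟩
  have norm : ∀ a b : X, Adj r st a b → ∃ b', r b' = r b ∧ S a b' = 1 := by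
    intro a b hab
    rcases pm_one (hS.one a b hab) with h1 | h1
    · exact ⟨b, rfl, h1⟩
    · refine ⟨c • b, h.c_smul b, ?_⟩
      rw [hS.io.right, h1, neg_neg]
  obtain ⟨y0, hy0, h00⟩ := norm x0 y hxy
  have had0 : Adj r st x0 y0 := by
    unfold Adj at *
    rwa [hy0]
  obtain ⟨x1', hx1'⟩ := h.surj x0 (st (r x0))
  have hadj1' : Adj r st y0 x1' := by
    unfold Adj at *
    rw [hx1']
    refine ⟨fun h1 => had0.2 h1.symm, fun h1 => had0.1 ?_⟩
    have := congrArg st h1
    rw [h.st_st, h.st_st] at this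
    exact this.symm
  obtain ⟨x1, hx1, h10'⟩ := norm y0 x1' hadj1'
  rw [hx1'] at hx1
  have h10 : S x1 y0 = 1 := by rw [hsym, h10']
  obtain ⟨y1', hy1'⟩ := h.surj x0 (st (r y0))
  have hadj2' : Adj r st x0 y1' := by
    unfold Adj at *
    rw [hy1']
    refine ⟨fun h1 => had0.2 ?_, fun h1 => had0.1 ?_⟩
    · rw [← h1, h.st_st]
    · have := congrArg st h1
      rwa [h.st_st, h.st_st] at this
  obtain ⟨y1, hy1, h01⟩ := norm x0 y1' hadj2'
  rw [hy1'] at hy1
  have hadj11 : Adj r st x1 y1 := by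
    unfold Adj at *
    rw [hx1, hy1]
    refine ⟨fun h1 => had0.1 ?_, fun h1 => had0.2 ?_⟩
    · have := congrArg st h1
      rwa [h.st_st, h.st_st] at this
    · rw [h.st_st] at h1
      rw [← h1, h.st_st]
  -- every point is one of eight
  have height : ∀ z : X, (z = x0 ∨ z = c • x0) ∨ (z = x1 ∨ z = c • x1) ∨ (z = y0 ∨ z = c • y0) ∨
      (z = y1 ∨ z = c • y1) := by
    intro z
    rcases h.four (r x0) (r y0) (r z) had0.1 had0.2 with h1 | h1 | h1 | h1
    · exact Or.inl ((h.eq x0 z).1 h1.symm)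
    · exact Or.inr (Or.inl ((h.eq x1 z).1 (by rw [hx1, h1])))
    · exact Or.inr (Or.inr (Or.inl ((h.eq y0 z).1 h1.symm)))
    · exact Or.inr (Or.inr (Or.inr ((h.eq y1 z).1 (by rw [hy1, h1]))))
  have hne : ∀ a b : X, r a ≠ r b → uu c b a = 0 := by
    intro a b hab
    refine uu_of_ne (fun h1 => hab ?_) (fun h1 => hab ?_)
    · rw [h1]
    · rw [h1, h.c_smul]
  have d1 : r x0 ≠ r x1 := by rw [hx1]; exact fun h1 => h.st_ne (r x0) h1.symm
  have d2 : r x0 ≠ r y0 := fun h1 => had0.1 h1.symm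
  have d3 : r x0 ≠ r y1 := by
    rw [hy1]
    intro h1
    apply had0.2
    rw [h1, h.st_st]
  have d4 : r x1 ≠ r y0 := by rw [hx1]; exact fun h1 => had0.2 h1.symm
  have d5 : r x1 ≠ r y1 := fun h1 => hadj11.1 h1.symm
  have d6 : r y0 ≠ r y1 := by rw [hy1]; exact fun h1 => h.st_ne (r y0) h1.symm
  rcases pm_one (hS.one x1 y1 hadj11) with h11 | h11
  · -- the character
    left
    set κ : X → ℤ := fun z => uu c x0 z + uu c x1 z + uu c y0 z + uu c y1 z with hκ
    have hneg : ∀ z, κ (c • z) = -κ z := by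
      intro z
      simp only [hκ, uu_neg hc2 hfree]
      ring
    have k0 : κ x0 = 1 := by
      simp only [hκ]
      rw [uu_self hfree, hne x0 x1 d1, hne x0 y0 d2, hne x0 y1 d3]
      norm_num
    have k1 : κ x1 = 1 := by
      simp only [hκ]
      rw [uu_self hfree, hne x1 x0 d1.symm, hne x1 y0 d4, hne x1 y1 d5]
      norm_num
    have k2 : κ y0 = 1 := by
      simp only [hκ]
      rw [uu_self hfree, hne y0 x0 d2.symm, hne y0 x1 d4.symm, hne y0 y1 d6]
      norm_num
    have k3 : κ y1 = 1 := by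
      simp only [hκ]
      rw [uu_self hfree, hne y1 x0 d3.symm, hne y1 x1 d5.symm, hne y1 y0 d6.symm]
      norm_num
    have kc0 : κ (c • x0) = -1 := by rw [hneg, k0]
    have kc1 : κ (c • x1) = -1 := by rw [hneg, k1]
    have kc2 : κ (c • y0) = -1 := by rw [hneg, k2]
    have kc3 : κ (c • y1) = -1 := by rw [hneg, k3]
    have hone : ∀ z, κ z * κ z = 1 := by
      intro z
      rcases height z with (h1 | h1) | (h1 | h1) | (h1 | h1) | (h1 | h1) <;> rw [h1]
      · rw [k0]; norm_num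
      · rw [kc0]; norm_num
      · rw [k1]; norm_num
      · rw [kc1]; norm_num
      · rw [k2]; norm_num
      · rw [kc2]; norm_num
      · rw [k3]; norm_num
      · rw [kc3]; norm_num
    -- the sign in terms of `κ`, from an `x` to a `y`
    have hSxy : ∀ a b : X, (∀ a' : X, (a' = a ∨ a' = c • a) → ∀ b' : X, (b' = b ∨ b' = c • b) →
        S a b = 1 → κ a = 1 → κ b = 1 → S a' b' = κ a' * κ b') := by
      intro a b a' ha' b' hb' e1 e2 e3
      rcases ha' with rfl | rfl <;> rcases hb' with rfl | rfl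
      · rw [e1, e2, e3]; norm_num
      · rw [hS.io.right, e1, hneg, e2, e3]; norm_num
      · rw [hS.io.left, e1, hneg, e2, e3]; norm_num
      · rw [hS.io.left, hS.io.right, e1, hneg, hneg, e2, e3]; norm_num
    have hSk : ∀ z w, Adj r st z w → S z w = κ z * κ w := by
      have nadj : ∀ a b z w : X, r z = r a → r w = r b → (r b = r a ∨ r b = st (r a)) →
          ¬ Adj r st z w := by
        intro a b z w e1 e2 e3 e4
        unfold Adj at e4
        rw [e1, e2] at e4
        rcases e3 with e3 | e3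
        · exact e4.1 e3
        · exact e4.2 e3
      have rr : ∀ a z : X, (z = a ∨ z = c • a) → r z = r a := by
        intro a z hz
        rcases hz with rfl | rfl
        · rfl
        · exact h.c_smul a
      intro z w hzw
      rcases height z with h1 | h1 | h1 | h1 <;> rcases height w with h2 | h2 | h2 | h2
      · exact absurd hzw (nadj x0 x0 z w (rr _ _ h1) (rr _ _ h2) (Or.inl rfl))
      · exact absurd hzw (nadj x0 x1 z w (rr _ _ h1) (rr _ _ h2) (Or.inr hx1))
      · exact hSxy x0 y0 z h1 w h2 h00 k0 k2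
      · exact hSxy x0 y1 z h1 w h2 h01 k0 k3
      · exact absurd hzw (nadj x1 x0 z w (rr _ _ h1) (rr _ _ h2)
          (Or.inr (by rw [hx1, h.st_st])))
      · exact absurd hzw (nadj x1 x1 z w (rr _ _ h1) (rr _ _ h2) (Or.inl rfl))
      · exact hSxy x1 y0 z h1 w h2 h10 k1 k2
      · exact hSxy x1 y1 z h1 w h2 h11 k1 k3
      · exact hSxy y0 x0 z h1 w h2 (by rw [hsym, h00]) k2 k0
      · exact hSxy y0 x1 z h1 w h2 (by rw [hsym, h10]) k2 k1
      · exact absurd hzw (nadj y0 y0 z w (rr _ _ h1) (rr _ _ h2) (Or.inl rfl))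
      · exact absurd hzw (nadj y0 y1 z w (rr _ _ h1) (rr _ _ h2) (Or.inr hy1))
      · exact hSxy y1 x0 z h1 w h2 (by rw [hsym, h01]) k3 k0
      · exact hSxy y1 x1 z h1 w h2 (by rw [hsym, h11]) k3 k1
      · exact absurd hzw (nadj y1 y0 z w (rr _ _ h1) (rr _ _ h2)
          (Or.inr (by rw [hy1, h.st_st])))
      · exact absurd hzw (nadj y1 y1 z w (rr _ _ h1) (rr _ _ h2) (Or.inl rfl))
    refine ⟨κ, ⟨hone, hneg, ?_⟩, hSk⟩
    have hadj : ∀ (k : G) (z w : X), Adj r st z w → κ (k • z) * κ (k • w) = κ z * κ w := by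
      intro k z w hzw
      rw [← hSk z w hzw, ← hSk _ _ ((h.adj_smul k z w).2 hzw), hS.io.inv]
    intro k z w
    by_cases hzw : Adj r st z w
    · exact hadj k z w hzw
    · -- a point adjacent to both
      obtain ⟨m, hm⟩ := h.trans (r x0) (r z)
      have hu1 : Adj r st z (m • y0) := by
        have h1 := (h.adj_smul m x0 y0).2 had0
        unfold Adj at h1 ⊢
        have h2 : r (m • x0) = r z := by rw [h.eqv, hm]
        rwa [h2] at h1
      have hu2 : Adj r st w (m • y0) := by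
        unfold Adj at hzw hu1 ⊢
        push Not at hzw
        by_cases h3 : r w = r z
        · rwa [h3]
        · have h4 := hzw h3
          rw [h4, h.st_st]
          exact ⟨hu1.2, hu1.1⟩
      have e1 := hadj k z (m • y0) hu1
      have e2 := hadj k w (m • y0) hu2
      have e3 := hone (k • m • y0)
      have e4 := hone (m • y0)
      calc κ (k • z) * κ (k • w) =
          (κ (k • z) * κ (k • w)) * (κ (k • m • y0) * κ (k • m • y0)) := by rw [e3, mul_one]
        _ = (κ (k • z) * κ (k • m • y0)) * (κ (k • w) * κ (k • m • y0)) := by ring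
        _ = (κ z * κ (m • y0)) * (κ w * κ (m • y0)) := by rw [e1, e2]
        _ = (κ z * κ w) * (κ (m • y0) * κ (m • y0)) := by ring
        _ = κ z * κ w := by rw [e4, mul_one]
  · -- the octagon
    right
    have tab := table hS.io hc2 hsym h00 h10 h01 h11
      (hS.zero _ _ (fun h1 => h1.1 rfl)) (hS.zero _ _ (fun h1 => h1.2 hx1))
      (hS.zero _ _ (fun h1 => h1.1 rfl)) (hS.zero _ _ (fun h1 => h1.1 rfl))
      (hS.zero _ _ (fun h1 => h1.2 hy1)) (hS.zero _ _ (fun h1 => h1.1 rfl))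
    have hsurj : Function.Surjective (vv c x0 y0 x1 y1) := by
      intro z
      rcases height z with (h1 | h1) | (h1 | h1) | (h1 | h1) | (h1 | h1)
      · exact ⟨0, h1.symm⟩
      · exact ⟨4, h1.symm⟩
      · exact ⟨2, h1.symm⟩
      · exact ⟨6, h1.symm⟩
      · exact ⟨1, h1.symm⟩
      · exact ⟨5, h1.symm⟩
      · exact ⟨7, h1.symm⟩
      · exact ⟨3, h1.symm⟩
    have hinj : Function.Injective (vv c x0 y0 x1 y1) := by
      intro i j hij
      -- the rows of the table are different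
      have h1 : ∀ k : ZMod 8, ff (k - i) = ff (k - j) := by
        intro k
        rw [← tab, ← tab, hij]
      have h2 : ∀ i j : ZMod 8, (∀ k : ZMod 8, ff (k - i) = ff (k - j)) → i = j := by decide
      exact h2 i j h1
    refine ⟨vv c x0 y0 x1 y1, ⟨⟨hinj, hsurj⟩, vv_four hc2 x0 y0 x1 y1, fun g => ?_⟩, had0⟩
    choose π hπ using fun i => hsurj (g • vv c x0 y0 x1 y1 i)
    have hπinj : Function.Injective π := by
      intro i j hij
      have h1 : g • vv c x0 y0 x1 y1 i = g • vv c x0 y0 x1 y1 j := by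
        rw [← hπ, ← hπ, hij]
      exact hinj (smul_left_cancel g h1)
    have hπf : ∀ i j, ff (π j - π i) = ff (j - i) := by
      intro i j
      rw [← tab, ← tab, hπ, hπ, hS.io.inv]
    obtain ⟨b, hb | hb⟩ := octagon_aut π hπinj hπf
    · exact ⟨b, Or.inl fun i => by rw [← hπ, hb]⟩
    · exact ⟨b, Or.inr fun i => by rw [← hπ, hb]⟩

end Pool.Agent.V7H4.OC
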