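import Pool.Agent.V7H4.OC.B

/-!
# Octic fields: the symmetrized differences
-/

set_option autoImplicit false

open scoped Classical

namespace Pool.Agent.V7H4.OC

open Pool.Agent.Q11.CZ Pool.Agent.N770.CP Pool.Agent.V7H4.CT Pool.Agent.V7H4.PD

variable {G : Type} [Group G] [Fintype G] {X Y : Type} [Fintype X] [MulAction G X] [MulAction G Y]
  {c : G} {r : X → Y} {st : Y → Y}

/-- adjacent pairs, if there is a character -/
theorem Quart.adj_zpowers (h : Quart c r st) (hc : ∀ g, c * g = g * c) (hc2 : c * c = 1)
    (hfree : ∀ x : X, c • x ≠ x) (hX : Fintype.card X = 8) {κ : X → ℤ} (hk : Kap G c κ)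
    {x y : X} (hxy : Adj r st x y) {g g' : G} (hgg : Subgroup.zpowers g = Subgroup.zpowers g') :
    D c x y g + D c y x g = D c x y g' + D c y x g' := by
  set W : G → X → X → ℤ := fun g x y => (D c x y g + D c y x g) * (κ x * κ y) with hW
  have Wc : ∀ g x y, W g x (c • y) = W g x y := by
    intro g x y
    simp only [hW]
    rw [D_right hc2, D_left hc hc2, hk.neg]
    ring
  have Wc' : ∀ g x y, W g (c • x) y = W g x y := by
    intro g x y
    simp only [hW]
    rw [D_right hc2, D_left hc hc2, hk.neg]
    ring
  have Wk : ∀ (k : G) g x y, W g (k • x) (k • y) = W g x y := by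
    intro k g x y
    simp only [hW]
    rw [D_smul hc, D_smul hc, hk.mul]
  have Wall : ∀ g x' y', Adj r st x' y' → W g x' y' = W g x y := by
    intro g x' y' hxy'
    obtain ⟨k, h3, h4⟩ := h.adj_trans hxy hxy'
    rw [← Wk k g x y]
    rcases h3 with h3 | h3 <;> rcases h4 with h4 | h4 <;> rw [h3, h4]
    · rw [Wc]
    · rw [Wc']
    · rw [Wc, Wc']
  have Wself : ∀ g, W g x x = 2 * D c x x g := by
    intro g
    simp only [hW]
    have := hk.one x
    calc (D c x x g + D c x x g) * (κ x * κ x) = (D c x x g + D c x x g) * 1 := by rw [this]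
      _ = 2 * D c x x g := by ring
  obtain ⟨x', hx'⟩ := h.surj x (st (r x))
  have hx'x : r x' ≠ r x := by
    rw [hx']
    exact h.st_ne (r x)
  have key : ∀ g, 4 * W g x y =
      4 * (Fintype.card G : ℤ) * eps κ x g - 4 * D c x x g - 2 * W g x x' := by
    intro g
    have e1 : ∑ z : X, W g x z = 4 * (Fintype.card G : ℤ) * eps κ x g := by
      have e2 : ∀ z : X, W g x z = D c x z g * (κ x * κ z) + D c x z g⁻¹ * (κ x * κ z) := by
        intro z
        simp only [hW]
        rw [D_inv hc2 x z]
        ring
      rw [Finset.sum_congr rfl fun z _ => e2 z, Finset.sum_add_distrib, hk.sum_row hc2,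
        hk.sum_row hc2, hk.eps_inv]
      ring
    have e3 : ∀ z : X, W g x z = W g x y + cl c x z * (2 * D c x x g - W g x y) +
        cl c x' z * (W g x x' - W g x y) := by
      intro z
      have hcl : ∀ a b : X, r b ≠ r a → cl c a b = 0 := by
        intro a b hab
        refine cl_of_not (fun h1 => hab ?_) (fun h1 => hab ?_)
        · rw [h1]
        · rw [h1, h.c_smul]
      by_cases h8 : r z = r x
      · rw [hcl x' z (by rw [h8]; exact hx'x.symm)]
        rcases (h.eq x z).1 h8.symm with h9 | h9
        · rw [h9, cl_self hfree, Wself]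
          ring
        · rw [h9, cl_c hfree, Wc, Wself]
          ring
      · rw [hcl x z h8]
        by_cases h9 : r z = st (r x)
        · rcases (h.eq x' z).1 (by rw [hx', h9]) with h10 | h10
          · rw [h10, cl_self hfree]
            ring
          · rw [h10, cl_c hfree, Wc]
            ring
        · rw [hcl x' z (by rw [hx']; exact h9), Wall g x z ⟨h8, h9⟩]
          ring
    have e4 : ∀ a : X, ∑ z : X, cl c a z = 2 := by
      intro a
      have := sum_cl (c := c) hfree a (fun _ => 1)
      simpa using this
    have e5 : ∑ z : X, cl c x z * (2 * D c x x g - W g x y) = 2 * (2 * D c x x g - W g x y) := by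
      rw [← Finset.sum_mul, e4]
    have e7 : ∑ z : X, cl c x' z * (W g x x' - W g x y) = 2 * (W g x x' - W g x y) := by
      rw [← Finset.sum_mul, e4]
    have e6 : ∑ _z : X, W g x y = 8 * W g x y := by
      rw [Finset.sum_const, Finset.card_univ, hX]
      simp
    rw [Finset.sum_congr rfl fun z _ => e3 z, Finset.sum_add_distrib, Finset.sum_add_distrib,
      e5, e6, e7] at e1
    linear_combination e1
  have hopp : W g x x' = W g' x x' := by
    simp only [hW]
    rw [h.opp_zpowers hc hc2 hfree hx' hgg]
  have h5 : W g x y = W g' x y := by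
    have h6 : 4 * W g x y = 4 * W g' x y := by
      rw [key, key, hk.eps_zpowers x hgg, D_self_zpowers hc hc2 hgg x, hopp]
    linarith
  simp only [hW] at h5
  have h8 : κ x * κ y ≠ 0 := by
    have h9 := hk.one x
    have h10 := hk.one y
    intro h11
    have : (κ x * κ y) * (κ x * κ y) = 1 := by
      calc (κ x * κ y) * (κ x * κ y) = (κ x * κ x) * (κ y * κ y) := by ring
        _ = 1 := by rw [h9, h10, one_mul]
    rw [h11] at this
    norm_num at this
  exact mul_right_cancel₀ h8 h5

/-- **The symmetrized differences, if the points do not form an octagon.** -/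
theorem Quart.heights (h : Quart c r st) (hc : ∀ g, c * g = g * c) (hc2 : c * c = 1)
    (hfree : ∀ x : X, c • x ≠ x) (hX : Fintype.card X = 8)
    (hno : ¬ ∃ v : ZMod 8 → X, Octagon c v ∧ Adj r st (v 0) (v 1)) (x y : X) (g g' : G)
    (hgg : Subgroup.zpowers g = Subgroup.zpowers g') :
    D c x y g + D c y x g = D c x y g' + D c y x g' := by
  by_cases h1 : r y = r x
  · rcases (h.eq x y).1 h1.symm with h2 | h2
    · rw [h2, D_self_zpowers hc hc2 hgg x]
    · rw [h2, D_right hc2, D_right hc2, D_left hc hc2, D_left hc hc2,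
        D_self_zpowers hc hc2 hgg x]
  by_cases h2 : r y = st (r x)
  · exact h.opp_zpowers hc hc2 hfree h2 hgg
  have hxy : Adj r st x y := ⟨h1, h2⟩
  have hyx := h.adj_symm hxy
  rcases h.dichotomy hc hc2 with h0 | ⟨S, hS, s, hs⟩
  · rw [h0 x y g hxy, h0 x y g' hxy, h0 y x g hyx, h0 y x g' hyx]
  -- symmetric or antisymmetric
  have hflip := h.exists_mul hS (flip_invOdd hS.io) hxy
  have hη : (S y x * S x y) * (S y x * S x y) = 1 := by
    have h3 := hS.one x y hxy
    have h4 := hS.one y x hyx
    calc (S y x * S x y) * (S y x * S x y) = (S y x * S y x) * (S x y * S x y) := by ring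
      _ = 1 := by rw [h3, h4, one_mul]
  rcases pm_one hη with h5 | h5
  · have hsym : ∀ z w, S w z = S z w := by
      intro z w
      by_cases hzw : Adj r st z w
      · have := hflip z w hzw
        rw [h5, one_mul] at this
        exact this
      · rw [hS.zero z w hzw, hS.zero w z (fun h6 => hzw (h.adj_symm h6))]
    rcases h.two_cases hc2 hfree hS hsym hxy with ⟨κ, hk, _⟩ | hv
    · exact h.adj_zpowers hc hc2 hfree hX hk hxy hgg
    · exact absurd hv hno
  · have h6 : S y x = -S x y := by
      have := hflip x y hxy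
      rw [h5] at this
      linarith
    rw [hs x y g hxy, hs y x g hyx, hs x y g' hxy, hs y x g' hyx, h6]
    ring

end Pool.Agent.V7H4.OC
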