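import Pool.Agent.V7H4.OC.C

/-!
# Octic fields: the octagon and the dihedral group of order sixteen
-/

set_option autoImplicit false

open scoped Classical commutatorElement

namespace Pool.Agent.V7H4.OC

open Pool.Agent.Q11.CZ Pool.Agent.N770.CP Pool.Agent.V7H4.CT Pool.Agent.V7H4.PD

/-- the action of the dihedral group on the octagon -/
def dact : DihedralGroup 8 → ZMod 8 → ZMod 8
  | .r i, k => k + i
  | .sr i, k => -k - i

lemma dact_mul (a b : DihedralGroup 8) (k : ZMod 8) : dact (a * b) k = dact a (dact b k) := by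
  rcases a with i | i <;> rcases b with j | j
  · rw [DihedralGroup.r_mul_r]
    simp only [dact]
    ring
  · rw [DihedralGroup.r_mul_sr]
    simp only [dact]
    ring
  · rw [DihedralGroup.sr_mul_r]
    simp only [dact]
    ring
  · rw [DihedralGroup.sr_mul_sr]
    simp only [dact]
    ring

lemma dact_inj {a b : DihedralGroup 8} (h : ∀ k, dact a k = dact b k) : a = b := by
  have two : (2 : ZMod 8) ≠ 0 := by decide
  rcases a with i | i <;> rcases b with j | j
  · have := h 0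
    simp only [dact] at this
    have h1 : i = j := by linear_combination this
    rw [h1]
  · exfalso
    have h0 := h 0
    have h1 := h 1
    simp only [dact] at h0 h1
    exact two (by linear_combination h1 - h0)
  · exfalso
    have h0 := h 0
    have h1 := h 1
    simp only [dact] at h0 h1
    exact two (by linear_combination h0 - h1)
  · have := h 0
    simp only [dact] at this
    have h1 : i = j := by linear_combination -this
    rw [h1]

variable {G : Type} [Group G] {X : Type} [MulAction G X] {c : G}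

lemma Octagon.exists_dact {v : ZMod 8 → X} (h : Octagon c v) (g : G) :
    ∃ d : DihedralGroup 8, ∀ i, g • v i = v (dact d i) := by
  obtain ⟨b, hb | hb⟩ := h.act g
  · exact ⟨.r b, hb⟩
  · refine ⟨.sr (-b), fun i => ?_⟩
    rw [hb]
    congr 1
    simp only [dact]
    ring

/-- the homomorphism to the dihedral group -/
theorem Octagon.exists_hom {v : ZMod 8 → X} (h : Octagon c v) :
    ∃ θ : G →* DihedralGroup 8, ∀ g i, g • v i = v (dact (θ g) i) := by
  choose f hf using h.exists_dact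
  have huniq : ∀ (g : G) (d : DihedralGroup 8), (∀ i, g • v i = v (dact d i)) → f g = d := by
    intro g d hd
    refine dact_inj fun k => h.bij.1 ?_
    rw [← hf, ← hd]
  refine ⟨⟨⟨f, ?_⟩, ?_⟩, hf⟩
  · refine huniq 1 1 fun i => ?_
    rw [one_smul, DihedralGroup.one_def]
    simp only [dact, add_zero]
  · intro a b
    refine huniq (a * b) (f a * f b) fun i => ?_
    rw [mul_smul, hf b, hf a, dact_mul]

/-- it is surjective if some element acts as a reflection -/
theorem Octagon.surj {v : ZMod 8 → X} {θ : G →* DihedralGroup 8}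
    (hθ : ∀ g i, g • v i = v (dact (θ g) i)) (hv : Function.Bijective v)
    (htr : ∀ x y : X, ∃ g : G, g • x = y) {σ : G} (hσ1 : σ • v 0 = v 0) (hσ2 : σ • v 1 ≠ v 1) :
    Function.Surjective θ := by
  have hσ : θ σ = .sr 0 := by
    have e0 := hθ σ 0
    rw [hσ1] at e0
    have e1 := hv.1 e0
    have e2 := hθ σ 1
    rcases h : θ σ with i | i
    · exfalso
      rw [h] at e1 e2
      simp only [dact] at e1 e2
      apply hσ2
      have : i = 0 := by linear_combination -e1
      rw [e2, this, add_zero]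
    · rw [h] at e1
      simp only [dact] at e1
      have : i = 0 := by linear_combination e1
      rw [this]
  have hr : ∀ b : ZMod 8, ∃ g, θ g = .r b := by
    intro b
    obtain ⟨g, hg⟩ := htr (v 0) (v b)
    have e0 := hθ g 0
    rw [hg] at e0
    have e1 := hv.1 e0
    rcases h : θ g with i | i
    · rw [h] at e1
      simp only [dact] at e1
      refine ⟨g, ?_⟩
      rw [h]
      have : i = b := by linear_combination -e1
      rw [this]
    · rw [h] at e1
      simp only [dact] at e1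
      refine ⟨g * σ, ?_⟩
      rw [map_mul, h, hσ, DihedralGroup.sr_mul_sr]
      have : i = -b := by linear_combination e1
      rw [this]
      simp
  intro d
  rcases d with b | b
  · exact hr b
  · obtain ⟨g, hg⟩ := hr (-b)
    refine ⟨g * σ, ?_⟩
    rw [map_mul, hg, hσ, DihedralGroup.r_mul_sr]
    simp

/-- the elements in the kernel act trivially -/
lemma Octagon.ker {v : ZMod 8 → X} {θ : G →* DihedralGroup 8}
    (hθ : ∀ g i, g • v i = v (dact (θ g) i)) (hv : Function.Bijective v) (g : G) :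
    θ g = 1 ↔ ∀ x : X, g • x = x := by
  constructor
  · intro h x
    obtain ⟨i, rfl⟩ := hv.2 x
    rw [hθ, h, DihedralGroup.one_def]
    simp only [dact, add_zero]
  · intro h
    refine dact_inj fun k => hv.1 ?_
    rw [← hθ, h, DihedralGroup.one_def]
    simp only [dact, add_zero]

/-! ### The converse -/

section converse

variable [Fintype G] [Fintype X] {θ : G →* DihedralGroup 8}

/-- the kernel of `θ` is the kernel of the action -/
structure Dih (c : G) (X : Type) [Fintype X] [MulAction G X] (θ : G →* DihedralGroup 8) : Prop where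
  surj : Function.Surjective θ
  ker : ∀ g, θ g = 1 ↔ ∀ x : X, g • x = x
  card : Fintype.card X = 8
  trans : ∀ x y : X, ∃ g : G, g • x = y
  comm : ∀ g, c * g = g * c
  sq : c * c = 1
  free : ∀ x : X, c • x ≠ x

omit [Fintype G] in
lemma Dih.act_eq (h : Dih c X θ) {g k : G} (hgk : θ g = θ k) (x : X) : g • x = k • x := by
  have h1 : θ (k⁻¹ * g) = 1 := by rw [map_mul, map_inv, hgk, inv_mul_cancel]
  have h2 := (h.ker _).1 h1 x
  rwa [mul_smul, inv_smul_eq_iff] at h2

omit [Fintype G] in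
lemma Dih.theta_c [Nonempty X] (h : Dih c X θ) : θ c = .r 4 := by
  have h1 : ∀ d : DihedralGroup 8, (∀ e, d * e = e * d) → d ≠ 1 → d = .r 4 := by decide
  refine h1 _ (fun e => ?_) (fun h2 => ?_)
  · obtain ⟨g, rfl⟩ := h.surj e
    rw [← map_mul, ← map_mul, h.comm]
  · obtain ⟨x⟩ := ‹Nonempty X›
    exact h.free x ((h.ker c).1 h2 x)

omit [Fintype G] in
/-- rotations have no fixed points -/
lemma Dih.rot_fix [Nonempty X] (h : Dih c X θ) {g : G} {i : ZMod 8} (hg : θ g = .r i) {x : X}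
    (hx : g • x = x) : i = 0 := by
  by_contra hi
  have h1 : ∀ i : ZMod 8, i ≠ 0 → ∃ m : ZMod 8, m * i = 4 := by decide
  obtain ⟨m, hm⟩ := h1 i hi
  have h2 : θ (g ^ m.val) = θ c := by
    rw [map_pow, hg, h.theta_c, DihedralGroup.r_pow, ZMod.natCast_zmod_val, mul_comm, hm]
  have h3 : g ^ m.val • x = x := by
    have : ∀ n : ℕ, g ^ n • x = x := by
      intro n
      induction n with
      | zero => simp
      | succ n ih => rw [pow_succ, mul_smul, hx, ih]
    exact this _
  rw [h.act_eq h2] at h3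
  exact h.free x h3

/-- some reflection fixes a given point -/
lemma Dih.exists_refl [Nonempty X] (h : Dih c X θ) (x : X) :
    ∃ (σ : G) (i : ZMod 8), σ • x = x ∧ θ σ = .sr i := by
  have hpre : MulAction.IsPretransitive G X := ⟨h.trans⟩
  have h1 : ∃ σ : G, σ • x = x ∧ θ σ ≠ 1 := by
    by_contra hcon
    push Not at hcon
    have h2 : MulAction.stabilizer G x ≤ θ.ker := by
      intro g hg
      exact hcon g hg
    have h3 : Nat.card (MulAction.stabilizer G x) ≤ Nat.card θ.ker :=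
      Subgroup.card_le_of_le h2
    have h4 : (MulAction.stabilizer G x).index = 8 := by
      rw [MulAction.index_stabilizer_of_transitive, Nat.card_eq_fintype_card, h.card]
    have h5 : θ.ker.index = 16 := by
      rw [Subgroup.index_ker, MonoidHom.range_eq_top.2 h.surj, Subgroup.card_top,
        DihedralGroup.nat_card]
    have h6 := (MulAction.stabilizer G x).card_mul_index
    have h7 := θ.ker.card_mul_index
    rw [h4] at h6
    rw [h5] at h7
    have h8 : 0 < Nat.card G := Nat.card_pos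
    omega
  obtain ⟨σ, hσ1, hσ2⟩ := h1
  rcases hd : θ σ with i | i
  · exfalso
    apply hσ2
    have := h.rot_fix hd hσ1
    rw [hd, this]
    rfl
  · exact ⟨σ, i, hσ1, hd⟩

omit [Fintype G] in
/-- the points in the order of the octagon -/
lemma Dih.bij [Nonempty X] (h : Dih c X θ) {ρ : G} (hρ : θ ρ = .r 1) (x : X) :
    Function.Bijective (fun k : ZMod 8 => ρ ^ k.val • x) := by
  rw [Fintype.bijective_iff_injective_and_card]
  refine ⟨fun j k hjk => ?_, by rw [ZMod.card, h.card]⟩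
  have h1 : (ρ ^ k.val)⁻¹ • ρ ^ j.val • x = x := by
    simp only at hjk
    rw [hjk, inv_smul_smul]
  rw [← mul_smul] at h1
  have h2 : θ ((ρ ^ k.val)⁻¹ * ρ ^ j.val) = .r (j - k) := by
    rw [map_mul, map_inv, map_pow, map_pow, hρ, DihedralGroup.r_pow, DihedralGroup.r_pow,
      ZMod.natCast_zmod_val, ZMod.natCast_zmod_val, one_mul, one_mul, DihedralGroup.inv_r,
      DihedralGroup.r_mul_r]
    congr 1
    ring
  have h3 := h.rot_fix h2 h1
  exact sub_eq_zero.1 h3

lemma count_lemma (a : ZMod 8 → Bool) (ha : ∀ k, a (k + 4) = !a k) :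
    (∑ k : ZMod 8, if a k = true ∧ a (k + 1) = true then (1 : ℕ) else 0) = 1 ∨
      (∑ k : ZMod 8, if a k = true ∧ a (k + 1) = true then (1 : ℕ) else 0) = 3 := by
  have h4 : a 4 = !a 0 := ha 0
  have h5 : a 5 = !a 1 := ha 1
  have h6 : a 6 = !a 2 := ha 2
  have h7 : a 7 = !a 3 := ha 3
  have hsum : (∑ k : ZMod 8, if a k = true ∧ a (k + 1) = true then (1 : ℕ) else 0) =
      (if a 0 = true ∧ a 1 = true then 1 else 0) + (if a 1 = true ∧ a 2 = true then 1 else 0) +
      (if a 2 = true ∧ a 3 = true then 1 else 0) + (if a 3 = true ∧ a 4 = true then 1 else 0) +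
      (if a 4 = true ∧ a 5 = true then 1 else 0) + (if a 5 = true ∧ a 6 = true then 1 else 0) +
      (if a 6 = true ∧ a 7 = true then 1 else 0) + (if a 7 = true ∧ a 0 = true then 1 else 0) :=
    Fin.sum_univ_eight _
  rw [hsum, h4, h5, h6, h7]
  cases a 0 <;> cases a 1 <;> cases a 2 <;> cases a 3 <;> simp

omit [Fintype G] in
/-- the number of the elements of a half-system mapped into it by the rotation -/
lemma Dih.R_rho [Nonempty X] (h : Dih c X θ) {ρ : G} (hρ : θ ρ = .r 1) {Φ : Finset X}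
    (hΦ : IsHalf c Φ) : (R Φ ρ : ℚ) = 1 ∨ (R Φ ρ : ℚ) = 3 := by
  obtain ⟨x⟩ := ‹Nonempty X›
  have hb := h.bij hρ x
  set v : ZMod 8 → X := fun k => ρ ^ k.val • x with hv
  have hstep : ∀ k, ρ • v k = v (k + 1) := by
    intro k
    simp only [hv]
    rw [← mul_smul, ← pow_succ']
    apply h.act_eq
    rw [map_pow, map_pow, hρ, DihedralGroup.r_pow, DihedralGroup.r_pow, ZMod.natCast_zmod_val]
    push_cast
    rw [ZMod.natCast_zmod_val]
  have hfour : ∀ k, v (k + 4) = c • v k := by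
    intro k
    simp only [hv]
    rw [← mul_smul]
    apply h.act_eq
    rw [map_mul, map_pow, map_pow, hρ, h.theta_c, DihedralGroup.r_pow, DihedralGroup.r_pow,
      DihedralGroup.r_mul_r, ZMod.natCast_zmod_val, ZMod.natCast_zmod_val]
    congr 1
    ring
  set a : ZMod 8 → Bool := fun k => decide (v k ∈ Φ) with ha
  have ha4 : ∀ k, a (k + 4) = !a k := by
    intro k
    simp only [ha]
    rw [hfour]
    have := hΦ (v k)
    by_cases h1 : v k ∈ Φ
    · have h2 : c • v k ∉ Φ := by tauto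
      simp [h1, h2]
    · have h2 : c • v k ∈ Φ := by tauto
      simp [h1, h2]
  have hR : (R Φ ρ : ℚ) =
      ((∑ k : ZMod 8, if a k = true ∧ a (k + 1) = true then (1 : ℕ) else 0 : ℕ) : ℚ) := by
    unfold R
    congr 1
    rw [Finset.card_filter]
    have h1 : ∑ i ∈ Φ, (if ρ • i ∈ Φ then 1 else 0) =
        ∑ i : X, (if i ∈ Φ ∧ ρ • i ∈ Φ then 1 else 0) := by
      rw [← Finset.sum_filter_add_sum_filter_not Finset.univ (fun i => i ∈ Φ)]
      have h2 : Finset.univ.filter (fun i => i ∈ Φ) = Φ := by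
        ext i
        simp
      rw [h2]
      have h3 : ∑ i ∈ Finset.univ.filter (fun i => ¬ i ∈ Φ),
          (if i ∈ Φ ∧ ρ • i ∈ Φ then 1 else 0) = 0 := by
        refine Finset.sum_eq_zero fun i hi => ?_
        rw [if_neg]
        exact fun h4 => (Finset.mem_filter.1 hi).2 h4.1
      rw [h3, add_zero]
      refine Finset.sum_congr rfl fun i hi => ?_
      simp only [hi, true_and]
    rw [h1, ← Function.Bijective.sum_comp hb]
    refine Finset.sum_congr rfl fun k _ => ?_
    have h4 : ρ • v k = v (k + 1) := hstep k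
    change (if v k ∈ Φ ∧ ρ • v k ∈ Φ then 1 else 0) = _
    rw [h4]
    simp only [ha, decide_eq_true_eq]
  rcases count_lemma a ha4 with h1 | h1
  · left
    rw [hR, h1]
    norm_num
  · right
    rw [hR, h1]
    norm_num

omit [Fintype G] in
lemma Dih.R_eq (h : Dih c X θ) {g k : G} (hgk : θ g = θ k) (Φ : Finset X) :
    (R Φ g : ℚ) = R Φ k := by
  unfold R
  congr 2
  ext x
  rw [Finset.mem_filter, Finset.mem_filter, h.act_eq hgk]

omit [Fintype G] [Fintype X] in
lemma R_c {Φ : Finset X} (hΦ : IsHalf c Φ) (g : G) : (R Φ (c * g) : ℚ) = Φ.card - R Φ g := by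
  unfold R
  have h1 : (Φ.filter fun x => (c * g) • x ∈ Φ) = Φ.filter fun x => ¬ g • x ∈ Φ := by
    ext x
    rw [Finset.mem_filter, Finset.mem_filter, mul_smul, hΦ]
  rw [h1]
  have h2 := Finset.card_filter_add_card_filter_not (s := Φ) (fun x => g • x ∈ Φ)
  rw [← h2]
  push_cast
  ring

omit [Fintype X] in
/-- the value of the class function at a rotation -/
lemma T_const {Φ : Finset X} {g : G} {q : ℚ} (h : ∀ k : G, (R Φ (k⁻¹ * g * k) : ℚ) = q) :
    (T Φ g : ℚ) = q := by
  rw [T_eq_cav]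
  unfold cav
  rw [Finset.sum_congr rfl fun k _ => h k, Finset.sum_const, Finset.card_univ, nsmul_eq_mul,
    mul_comm, mul_div_assoc, div_self card_ne, mul_one]

lemma conj_rot (d : DihedralGroup 8) (i : ZMod 8) :
    d⁻¹ * .r i * d = .r i ∨ d⁻¹ * .r i * d = .r (-i) := by
  rcases d with j | j
  · left
    rw [DihedralGroup.inv_r, DihedralGroup.r_mul_r, DihedralGroup.r_mul_r]
    congr 1
    ring
  · right
    rw [DihedralGroup.inv_sr, DihedralGroup.sr_mul_r, DihedralGroup.sr_mul_sr]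
    congr 1
    ring

/-- the class function at the rotations by an odd angle -/
lemma Dih.T_odd [Nonempty X] (h : Dih c X θ) {ρ : G} (hρ : θ ρ = .r 1) {Φ : Finset X}
    (hΦ : IsHalf c Φ) (hcard : Φ.card = 4) (g : G) :
    ((θ g = .r 1 ∨ θ g = .r (-1)) → (T Φ g : ℚ) = R Φ ρ) ∧
    ((θ g = .r 3 ∨ θ g = .r (-3)) → (T Φ g : ℚ) = 4 - R Φ ρ) := by
  have e1 : ∀ k : G, (θ k = .r 1 ∨ θ k = .r (-1)) → (R Φ k : ℚ) = R Φ ρ := by
    rintro k (hk | hk)
    · exact h.R_eq (by rw [hk, hρ]) Φ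
    · rw [← R_inv Φ ρ]
      exact h.R_eq (by rw [hk, map_inv, hρ, DihedralGroup.inv_r]) Φ
  have e3 : ∀ k : G, (θ k = .r 3 ∨ θ k = .r (-3)) → (R Φ k : ℚ) = 4 - R Φ ρ := by
    intro k hk
    have h1 : θ (c * k) = .r 1 ∨ θ (c * k) = .r (-1) := by
      rw [map_mul, h.theta_c]
      rcases hk with hk | hk
      · right
        rw [hk, DihedralGroup.r_mul_r]
        congr 1
      · left
        rw [hk, DihedralGroup.r_mul_r]
        congr 1
    have h2 := R_c hΦ (c * k)
    rw [← mul_assoc, h.sq, one_mul, hcard, e1 _ h1] at h2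
    rw [h2]
    norm_num
  have hcj : ∀ (k : G) (i : ZMod 8), (θ g = .r i ∨ θ g = .r (-i)) →
      (θ (k⁻¹ * g * k) = .r i ∨ θ (k⁻¹ * g * k) = .r (-i)) := by
    intro k i hg
    rw [map_mul, map_mul, map_inv]
    rcases hg with hg | hg
    · rw [hg]
      exact conj_rot _ _
    · rw [hg]
      rcases conj_rot (θ k) (-i) with h1 | h1
      · exact Or.inr h1
      · rw [neg_neg] at h1
        exact Or.inl h1
  exact ⟨fun hg => T_const fun k => e1 _ (hcj k 1 hg), fun hg => T_const fun k => e3 _ (hcj k 3 hg)⟩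

/-- **No CM type of a dihedral octic field.** -/
theorem Dih.not_twist [Nonempty X] (h : Dih c X θ) {Φ : Finset X} (hΦ : IsHalf c Φ)
    (hcard : Φ.card = 4) : ¬ Twist (T Φ : G → ℚ) := by
  intro hT
  obtain ⟨ρ, hρ⟩ := h.surj (.r 1)
  obtain ⟨x⟩ := ‹Nonempty X›
  obtain ⟨σ, i, _, hσ⟩ := h.exists_refl x
  obtain ⟨j, hj1, hj2, hj3⟩ := Nat.forall_exists_prime_gt_and_eq_mod
    (show IsUnit (3 : ZMod 8) by decide) (Nat.card G)
  have hjc : j.Coprime (Nat.card G) := Nat.coprime_of_lt_prime (Nat.card_pos.ne') hj1 hj2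
  have hz : θ ⁅ρ, σ⁆ = .r 2 := by
    rw [commutatorElement_def, map_mul, map_mul, map_mul, map_inv, map_inv, hρ, hσ,
      DihedralGroup.inv_r, DihedralGroup.inv_sr, DihedralGroup.r_mul_sr, DihedralGroup.sr_mul_r,
      DihedralGroup.sr_mul_sr]
    congr 1
    ring
  have h1 := hT j hjc ρ ⁅ρ, σ⁆
    (Subgroup.commutator_mem_commutator (Subgroup.mem_top _) (Subgroup.mem_top _))
  have t1 : θ (ρ * ⁅ρ, σ⁆) = .r 3 := by
    rw [map_mul, hρ, hz, DihedralGroup.r_mul_r]
    rfl
  have t2 : θ ((ρ * ⁅ρ, σ⁆) ^ j) = .r 1 := by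
    rw [map_pow, t1, DihedralGroup.r_pow, hj3]
    rfl
  have t3 : θ (ρ ^ j) = .r 3 := by
    rw [map_pow, hρ, DihedralGroup.r_pow, hj3, one_mul]
  rw [(h.T_odd hρ hΦ hcard _).1 (Or.inl t2), (h.T_odd hρ hΦ hcard _).2 (Or.inl t1),
    (h.T_odd hρ hΦ hcard _).2 (Or.inl t3), (h.T_odd hρ hΦ hcard _).1 (Or.inl hρ)] at h1
  rcases h.R_rho hρ hΦ with h2 | h2
  · rw [h2] at h1
    norm_num at h1
  · rw [h2] at h1
    norm_num at h1

/-- **Two CM types of a dihedral octic field.** -/
theorem Dih.zinv_pair [Nonempty X] (h : Dih c X θ) {Φ Φ' : Finset X} (hΦ : IsHalf c Φ)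
    (hcard : Φ.card = 4) (hΦ' : IsHalf c Φ') (hcard' : Φ'.card = 4) :
    ZInv (fun g : G => (T Φ g : ℚ) - T Φ' g) ∨ ZInv (fun g : G => (T Φ g : ℚ) + T Φ' g) := by
  obtain ⟨ρ, hρ⟩ := h.surj (.r 1)
  -- the values at elements with the same image
  have hsame : ∀ (Φ : Finset X) (g k : G), θ g = θ k → (T Φ g : ℚ) = T Φ k := by
    intro Φ g k hgk
    rw [T_eq_cav]
    unfold cav
    congr 1
    refine Finset.sum_congr rfl fun m _ => h.R_eq ?_ Φ
    rw [map_mul, map_mul, map_mul, map_mul, hgk]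
  have hinv : ∀ (Φ : Finset X) (g k : G), θ g = (θ k)⁻¹ → (T Φ g : ℚ) = T Φ k := by
    intro Φ g k hgk
    rw [← T_inv Φ k]
    exact hsame Φ _ _ (by rw [map_inv, hgk])
  have heven : 2 ∣ Nat.card G := by
    have h1 : orderOf c = 2 := by
      rw [orderOf_eq_prime_iff]
      refine ⟨by rw [pow_two, h.sq], ?_⟩
      rintro rfl
      obtain ⟨x⟩ := ‹Nonempty X›
      exact h.free x (one_smul _ x)
    rw [← h1]
    exact orderOf_dvd_natCard c
  -- the main case distinction
  have key : ∀ g g' : G, Subgroup.zpowers g = Subgroup.zpowers g' →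
      (∀ Φ : Finset X, (T Φ g : ℚ) = T Φ g') ∨
      ((θ g = .r 1 ∨ θ g = .r (-1)) ∨ (θ g = .r 3 ∨ θ g = .r (-3))) ∧
        ((θ g' = .r 1 ∨ θ g' = .r (-1)) ∨ (θ g' = .r 3 ∨ θ g' = .r (-3))) := by
    intro g g' hgg
    obtain ⟨u, hu⟩ := exists_unit hgg
    set j := (u : ZMod (Nat.card G)).val with hj
    have hodd : Odd j := by
      rw [← Nat.not_even_iff_odd, even_iff_two_dvd]
      intro h1
      have h2 := Nat.dvd_gcd h1 heven
      rw [hj, ZMod.val_coe_unit_coprime u] at h2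
      exact absurd h2 (by norm_num)
    rcases hd : θ g with i | i
    · have h1 : θ g' = .r (i * j) := by
        rw [hu, map_pow, hd, DihedralGroup.r_pow]
      have h2 : (j : ZMod 8) = 1 ∨ (j : ZMod 8) = 3 ∨ (j : ZMod 8) = 5 ∨ (j : ZMod 8) = 7 := by
        obtain ⟨m, hm⟩ := hodd
        rw [hm]
        push_cast
        generalize (m : ZMod 8) = t
        revert t
        decide
      have h3 : ∀ i j : ZMod 8, (j = 1 ∨ j = 3 ∨ j = 5 ∨ j = 7) →
          (i * j = i ∨ i * j = -i) ∨ (((i = 1 ∨ i = -1) ∨ (i = 3 ∨ i = -3)) ∧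
            ((i * j = 1 ∨ i * j = -1) ∨ (i * j = 3 ∨ i * j = -3))) := by decide
      rcases h3 i j h2 with (h4 | h4) | ⟨h4, h5⟩
      · left
        intro Φ
        exact hsame Φ _ _ (by rw [h1, h4, hd])
      · left
        intro Φ
        exact hinv Φ _ _ (by rw [h1, h4, hd, DihedralGroup.inv_r, neg_neg])
      · right
        rw [h1]
        refine ⟨?_, ?_⟩
        · rcases h4 with (h4 | h4) | (h4 | h4)
          · exact Or.inl (Or.inl (by rw [h4]))
          · exact Or.inl (Or.inr (by rw [h4]))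
          · exact Or.inr (Or.inl (by rw [h4]))
          · exact Or.inr (Or.inr (by rw [h4]))
        · rcases h5 with (h4 | h4) | (h4 | h4)
          · exact Or.inl (Or.inl (by rw [h4]))
          · exact Or.inl (Or.inr (by rw [h4]))
          · exact Or.inr (Or.inl (by rw [h4]))
          · exact Or.inr (Or.inr (by rw [h4]))
    · left
      intro Φ
      refine hsame Φ _ _ ?_
      obtain ⟨m, hm⟩ := hodd
      rw [hu, map_pow, hd, hm, pow_succ, pow_mul, pow_two, DihedralGroup.sr_mul_self, one_pow,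
        one_mul]
  rcases h.R_rho hρ hΦ with h1 | h1 <;> rcases h.R_rho hρ hΦ' with h2 | h2
  · left
    intro g g' hgg
    simp only
    rcases key g g' hgg with h3 | ⟨h3 | h3, h4 | h4⟩
    · rw [h3, h3]
    · rw [(h.T_odd hρ hΦ hcard g).1 h3, (h.T_odd hρ hΦ' hcard' g).1 h3,
        (h.T_odd hρ hΦ hcard g').1 h4, (h.T_odd hρ hΦ' hcard' g').1 h4]
    · rw [(h.T_odd hρ hΦ hcard g).1 h3, (h.T_odd hρ hΦ' hcard' g).1 h3,
        (h.T_odd hρ hΦ hcard g').2 h4, (h.T_odd hρ hΦ' hcard' g').2 h4, h1, h2]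
      norm_num
    · rw [(h.T_odd hρ hΦ hcard g).2 h3, (h.T_odd hρ hΦ' hcard' g).2 h3,
        (h.T_odd hρ hΦ hcard g').1 h4, (h.T_odd hρ hΦ' hcard' g').1 h4, h1, h2]
      norm_num
    · rw [(h.T_odd hρ hΦ hcard g).2 h3, (h.T_odd hρ hΦ' hcard' g).2 h3,
        (h.T_odd hρ hΦ hcard g').2 h4, (h.T_odd hρ hΦ' hcard' g').2 h4]
  · right
    intro g g' hgg
    simp only
    rcases key g g' hgg with h3 | ⟨h3 | h3, h4 | h4⟩
    · rw [h3, h3]
    · rw [(h.T_odd hρ hΦ hcard g).1 h3, (h.T_odd hρ hΦ' hcard' g).1 h3,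
        (h.T_odd hρ hΦ hcard g').1 h4, (h.T_odd hρ hΦ' hcard' g').1 h4]
    · rw [(h.T_odd hρ hΦ hcard g).1 h3, (h.T_odd hρ hΦ' hcard' g).1 h3,
        (h.T_odd hρ hΦ hcard g').2 h4, (h.T_odd hρ hΦ' hcard' g').2 h4, h1, h2]
      norm_num
    · rw [(h.T_odd hρ hΦ hcard g).2 h3, (h.T_odd hρ hΦ' hcard' g).2 h3,
        (h.T_odd hρ hΦ hcard g').1 h4, (h.T_odd hρ hΦ' hcard' g').1 h4, h1, h2]
      norm_num
    · rw [(h.T_odd hρ hΦ hcard g).2 h3, (h.T_odd hρ hΦ' hcard' g).2 h3,
        (h.T_odd hρ hΦ hcard g').2 h4, (h.T_odd hρ hΦ' hcard' g').2 h4]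
  · right
    intro g g' hgg
    simp only
    rcases key g g' hgg with h3 | ⟨h3 | h3, h4 | h4⟩
    · rw [h3, h3]
    · rw [(h.T_odd hρ hΦ hcard g).1 h3, (h.T_odd hρ hΦ' hcard' g).1 h3,
        (h.T_odd hρ hΦ hcard g').1 h4, (h.T_odd hρ hΦ' hcard' g').1 h4]
    · rw [(h.T_odd hρ hΦ hcard g).1 h3, (h.T_odd hρ hΦ' hcard' g).1 h3,
        (h.T_odd hρ hΦ hcard g').2 h4, (h.T_odd hρ hΦ' hcard' g').2 h4, h1, h2]
      norm_num
    · rw [(h.T_odd hρ hΦ hcard g).2 h3, (h.T_odd hρ hΦ' hcard' g).2 h3,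
        (h.T_odd hρ hΦ hcard g').1 h4, (h.T_odd hρ hΦ' hcard' g').1 h4, h1, h2]
      norm_num
    · rw [(h.T_odd hρ hΦ hcard g).2 h3, (h.T_odd hρ hΦ' hcard' g).2 h3,
        (h.T_odd hρ hΦ hcard g').2 h4, (h.T_odd hρ hΦ' hcard' g').2 h4]
  · left
    intro g g' hgg
    simp only
    rcases key g g' hgg with h3 | ⟨h3 | h3, h4 | h4⟩
    · rw [h3, h3]
    · rw [(h.T_odd hρ hΦ hcard g).1 h3, (h.T_odd hρ hΦ' hcard' g).1 h3,
        (h.T_odd hρ hΦ hcard g').1 h4, (h.T_odd hρ hΦ' hcard' g').1 h4]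
    · rw [(h.T_odd hρ hΦ hcard g).1 h3, (h.T_odd hρ hΦ' hcard' g).1 h3,
        (h.T_odd hρ hΦ hcard g').2 h4, (h.T_odd hρ hΦ' hcard' g').2 h4, h1, h2]
      norm_num
    · rw [(h.T_odd hρ hΦ hcard g).2 h3, (h.T_odd hρ hΦ' hcard' g).2 h3,
        (h.T_odd hρ hΦ hcard g').1 h4, (h.T_odd hρ hΦ' hcard' g').1 h4, h1, h2]
      norm_num
    · rw [(h.T_odd hρ hΦ hcard g).2 h3, (h.T_odd hρ hΦ' hcard' g).2 h3,
        (h.T_odd hρ hΦ hcard g').2 h4, (h.T_odd hρ hΦ' hcard' g').2 h4]

end converse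

end Pool.Agent.V7H4.OC
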