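import Pool.Agent.V7H4.PD.Fa
import Pool.Agent.V7H4.OC.Dg

/-!
# Octic CM fields
-/

set_option autoImplicit false

open scoped Classical
open NumberField

namespace Pool.Agent.V7H4.OC

open Pool.Agent.Results.MP_a2beea_nt.AveragedAndAbelian Pool.Agent.N770.CP Pool.Agent.V7H4.CT
open Pool.Agent.V7H4.PD

section quartic

variable {F K : Type} [Field F] [NumberField F] [Field K] [NumberField K] [IsGalois ℚ K]

omit [IsGalois ℚ K] in
lemma rr_one' (σ : F →ₐ[ℚ] K) : rr (1 : F ≃ₐ[ℚ] F) σ = σ := by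
  apply AlgHom.ext
  intro x
  rfl

omit [IsGalois ℚ K] in
lemma rr_mul' (a b : F ≃ₐ[ℚ] F) (σ : F →ₐ[ℚ] K) : rr (a * b) σ = rr a (rr b σ) := by
  apply AlgHom.ext
  intro x
  change σ ((a * b)⁻¹ x) = σ (b⁻¹ (a⁻¹ x))
  rw [mul_inv_rev]
  rfl

lemma move_or (σ τ : F →ₐ[ℚ] K) :
    (∃ g : K ≃ₐ[ℚ] K, g • σ = σ ∧ g • τ ≠ τ) ∨ ∃ a : F ≃ₐ[ℚ] F, τ = rr a σ := by
  by_cases h : ∃ g : K ≃ₐ[ℚ] K, g • σ = σ ∧ g • τ ≠ τ
  · exact Or.inl h
  · push Not at h
    exact Or.inr (exists_of_range_eq (range_eq (range_le h)))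

/-- the points of a set with four elements -/
lemma four_of_card {Y : Type} [Fintype Y] (hY : Fintype.card Y = 4) {a b c d : Y} (h1 : a ≠ b)
    (h2 : a ≠ c) (h3 : a ≠ d) (h4 : b ≠ c) (h5 : b ≠ d) (h6 : c ≠ d) (w : Y) :
    w = a ∨ w = b ∨ w = c ∨ w = d := by
  have e1 : ({a, b, c, d} : Finset Y).card = 4 := by
    rw [Finset.card_insert_of_notMem, Finset.card_insert_of_notMem, Finset.card_pair h6]
    · simp [h4, h5]
    · simp [h1, h2, h3]
  have e2 : ({a, b, c, d} : Finset Y) = Finset.univ :=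
    Finset.eq_univ_of_card _ (by rw [e1, hY])
  have e3 : w ∈ ({a, b, c, d} : Finset Y) := by
    rw [e2]
    exact Finset.mem_univ w
  simpa using e3

/-- **Quartic fields.** -/
theorem quartic_cases (h4 : Module.finrank ℚ F = 4) (σ₀ : F →ₐ[ℚ] K) :
    IsGalois ℚ F ∨ Two F K ∨ ∃ st : (F →ₐ[ℚ] K) → (F →ₐ[ℚ] K),
      (∀ (g : K ≃ₐ[ℚ] K) (σ : F →ₐ[ℚ] K), st (g • σ) = g • st σ) ∧ (∀ σ, st (st σ) = σ) ∧
      (∀ σ, st σ ≠ σ) ∧
      (∀ σ τ, τ ≠ σ → τ ≠ st σ → ∃ g : K ≃ₐ[ℚ] K, g • σ = σ ∧ g • τ = st τ) ∧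
      ∀ σ τ w, τ ≠ σ → τ ≠ st σ → w = σ ∨ w = st σ ∨ w = τ ∨ w = st τ := by
  have hFin : Fintype (F →ₐ[ℚ] K) := Fintype.ofFinite _
  have hcard : Fintype.card (F →ₐ[ℚ] K) = 4 := by
    rw [← Nat.card_eq_fintype_card, card_emb σ₀, h4]
  by_cases hG : IsGalois ℚ F
  · exact Or.inl hG
  right
  have hdvd := card_aut_dvd (F := F)
  rw [h4] at hdvd
  have hne4 : Nat.card (F ≃ₐ[ℚ] F) ≠ 4 := by
    intro h
    apply hG
    refine IsGalois.of_card_aut_eq_finrank ℚ F ?_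
    rw [h, h4]
  have hcases : Nat.card (F ≃ₐ[ℚ] F) = 1 ∨ Nat.card (F ≃ₐ[ℚ] F) = 2 := by
    have h1 : Nat.card (F ≃ₐ[ℚ] F) ≤ 4 := Nat.le_of_dvd (by norm_num) hdvd
    have h2 : 0 < Nat.card (F ≃ₐ[ℚ] F) := Nat.card_pos
    interval_cases h : Nat.card (F ≃ₐ[ℚ] F)
    · exact Or.inl rfl
    · exact Or.inr rfl
    · exact absurd hdvd (by norm_num)
    · exact absurd rfl hne4
  rcases hcases with h1 | h1
  · -- no automorphisms
    left
    have hmove : ∀ σ τ : F →ₐ[ℚ] K, τ ≠ σ → ∃ g : K ≃ₐ[ℚ] K, g • σ = σ ∧ g • τ ≠ τ := by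
      intro σ τ hne
      rcases move_or σ τ with h | ⟨a, ha⟩
      · exact h
      · exfalso
        rw [Nat.card_eq_one_iff_unique] at h1
        have : a = 1 := h1.1.elim _ _
        rw [this, rr_one'] at ha
        exact hne ha
    intro σ τ σ' τ' hστ hστ'
    obtain ⟨g, hg⟩ := Pool.Agent.Q11.CZ.exists_lift (K := K) σ σ'
    have hg' : g • σ = σ' := hg
    set ρ := g • τ with hρ
    have h5 : ρ ≠ σ' := by
      rw [hρ, ← hg']
      exact fun h => hστ (smul_left_cancel g h).symm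
    have hfin : ∀ k : K ≃ₐ[ℚ] K, k • σ' = σ' → k • ρ = τ' →
        ∃ g : K ≃ₐ[ℚ] K, (g : K →ₐ[ℚ] K).comp σ = σ' ∧ (g : K →ₐ[ℚ] K).comp τ = τ' := by
      intro k e1 e2
      refine ⟨k * g, ?_, ?_⟩
      · have : (k * g) • σ = σ' := by rw [mul_smul, hg', e1]
        exact this
      · have : (k * g) • τ = τ' := by rw [mul_smul, ← hρ, e2]
        exact this
    by_cases h6 : ρ = τ'
    · exact hfin 1 (one_smul _ _) (by rw [one_smul, h6])
    obtain ⟨k1, hk1, hk2⟩ := hmove σ' ρ h5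
    by_cases h7 : k1 • ρ = τ'
    · exact hfin k1 hk1 h7
    set ω := k1 • ρ with hω
    have h8 : ω ≠ σ' := by
      intro h
      apply h5
      rw [← hk1, hω] at h
      exact smul_left_cancel k1 h
    obtain ⟨k2, hk3, hk4⟩ := hmove σ' τ' (Ne.symm hστ')
    have h9 : k2 • τ' ≠ σ' := by
      intro h
      apply hστ'
      rw [← hk3] at h
      exact (smul_left_cancel k2 h).symm
    rcases four_of_card hcard hστ' (Ne.symm h5) (Ne.symm h8) (Ne.symm h6) (Ne.symm h7)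
      (Ne.symm hk2) (k2 • τ') with h | h | h | h
    · exact absurd h h9
    · exact absurd h hk4
    · refine hfin k2⁻¹ ?_ ?_
      · rw [inv_smul_eq_iff, hk3]
      · rw [inv_smul_eq_iff, h]
    · refine hfin (k2⁻¹ * k1) ?_ ?_
      · rw [mul_smul, hk1, inv_smul_eq_iff, hk3]
      · rw [mul_smul, ← hω, inv_smul_eq_iff, h]
  · -- one nontrivial automorphism
    right
    obtain ⟨α, hα1, hα2⟩ := (Nat.card_eq_two_iff' (1 : F ≃ₐ[ℚ] F)).mp h1
    have hall : ∀ a : F ≃ₐ[ℚ] F, a = 1 ∨ a = α := by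
      intro a
      by_cases ha : a = 1
      · exact Or.inl ha
      · exact Or.inr (hα2 a ha)
    have hαα : α * α = 1 := by
      rcases hall (α * α) with h | h
      · exact h
      · exact absurd (mul_eq_left.1 h) hα1
    have hst_ne : ∀ σ : F →ₐ[ℚ] K, rr α σ ≠ σ := by
      intro σ h
      apply hα1
      apply AlgEquiv.ext
      intro x
      have h2 := congrArg (fun f : F →ₐ[ℚ] K => f (α x)) h
      have h3 : σ (α⁻¹ (α x)) = σ (α x) := h2
      have h4 : α⁻¹ (α x) = x := by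
        have : (α⁻¹ * α) x = x := by rw [inv_mul_cancel]; rfl
        exact this
      rw [h4] at h3
      exact ((σ : F →+* K).injective h3).symm
    have hstst : ∀ σ : F →ₐ[ℚ] K, rr α (rr α σ) = σ := by
      intro σ
      rw [← rr_mul', hαα, rr_one']
    have hstg : ∀ (g : K ≃ₐ[ℚ] K) (σ : F →ₐ[ℚ] K), rr α (g • σ) = g • rr α σ := fun g σ => rfl
    have hfour : ∀ σ τ w : F →ₐ[ℚ] K, τ ≠ σ → τ ≠ rr α σ →
        w = σ ∨ w = rr α σ ∨ w = τ ∨ w = rr α τ := by
      intro σ τ w h2 h3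
      refine four_of_card hcard (Ne.symm (hst_ne σ)) (Ne.symm h2) ?_ (Ne.symm h3) ?_
        (Ne.symm (hst_ne τ)) w
      · intro h5
        apply h3
        rw [h5, hstst]
      · intro h5
        apply h2
        rw [← hstst σ, h5, hstst]
    refine ⟨rr α, hstg, hstst, hst_ne, ?_, hfour⟩
    intro σ τ h2 h3
    rcases move_or σ τ with ⟨g, hg1, hg2⟩ | ⟨a, ha⟩
    · refine ⟨g, hg1, ?_⟩
      rcases hfour σ τ (g • τ) h2 h3 with h5 | h5 | h5 | h5
      · exfalso
        apply h2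
        rw [← hg1] at h5
        have := smul_left_cancel g h5
        rw [this]
      · exfalso
        apply h3
        rw [← hg1, hstg] at h5
        exact smul_left_cancel g h5
      · exact absurd h5 hg2
      · exact h5
    · exfalso
      rcases hall a with rfl | rfl
      · exact h2 (by rw [ha, rr_one'])
      · exact h3 ha

end quartic

variable {E K : Type} [Field E] [NumberField E] [Field K] [NumberField K]

/-- the Galois group of the Galois closure of `E` is dihedral of order sixteen -/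
def DihClosure (E K : Type) [Field E] [NumberField E] [Field K] [NumberField K] : Prop :=
  Nonempty ((IntermediateField.normalClosure ℚ E K ≃ₐ[ℚ] IntermediateField.normalClosure ℚ E K) ≃*
    DihedralGroup 8)

section closure

variable [IsGalois ℚ K]

omit [IsGalois ℚ K] in
lemma mem_fix_iff (g : K ≃ₐ[ℚ] K) :
    g ∈ (IntermediateField.normalClosure ℚ E K).fixingSubgroup ↔
      ∀ ψ : E →ₐ[ℚ] K, g • ψ = ψ := by
  constructor
  · intro h ψ
    rw [IntermediateField.mem_fixingSubgroup_iff] at h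
    apply AlgHom.ext
    intro x
    exact h _ (AlgHom.fieldRange_le_normalClosure ψ ⟨x, rfl⟩)
  · intro h
    have h1 : IntermediateField.normalClosure ℚ E K ≤
        IntermediateField.fixedField (Subgroup.zpowers g) := by
      rw [normalClosure_le_iff]
      rintro ψ _ ⟨x, rfl⟩
      rw [IntermediateField.mem_fixedField_iff]
      intro k hk
      have h2 : g ∈ MulAction.stabilizer (K ≃ₐ[ℚ] K) ψ := h ψ
      have h3 : Subgroup.zpowers g ≤ MulAction.stabilizer (K ≃ₐ[ℚ] K) ψ :=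
        (Subgroup.zpowers_le).2 h2
      have h4 : k • ψ = ψ := h3 hk
      exact congrArg (fun f : E →ₐ[ℚ] K => f x) h4
    rw [IntermediateField.mem_fixingSubgroup_iff]
    intro x hx
    exact (IntermediateField.mem_fixedField_iff _ _).1 (h1 hx) g (Subgroup.mem_zpowers g)

/-- the closure and homomorphisms to the dihedral group -/
theorem dihClosure_iff : DihClosure E K ↔
    ∃ θ : (K ≃ₐ[ℚ] K) →* DihedralGroup 8, Function.Surjective θ ∧
      ∀ g, θ g = 1 ↔ ∀ ψ : E →ₐ[ℚ] K, g • ψ = ψ := by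
  have hn : Normal ℚ (IntermediateField.normalClosure ℚ E K) := normalClosure.normal ℚ E K
  set L := IntermediateField.normalClosure ℚ E K with hL
  have hker : ∀ g : K ≃ₐ[ℚ] K, AlgEquiv.restrictNormalHom L g = 1 ↔
      ∀ ψ : E →ₐ[ℚ] K, g • ψ = ψ := by
    intro g
    rw [← mem_fix_iff, ← IntermediateField.restrictNormalHom_ker]
    exact (MonoidHom.mem_ker).symm
  have hsurj : Function.Surjective (AlgEquiv.restrictNormalHom L : (K ≃ₐ[ℚ] K) →* (L ≃ₐ[ℚ] L)) :=
    AlgEquiv.restrictNormalHom_surjective K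
  constructor
  · rintro ⟨φ⟩
    refine ⟨(φ : (L ≃ₐ[ℚ] L) →* DihedralGroup 8).comp (AlgEquiv.restrictNormalHom L), ?_, ?_⟩
    · exact φ.surjective.comp hsurj
    · intro g
      rw [← hker]
      change φ (AlgEquiv.restrictNormalHom L g) = 1 ↔ _
      rw [map_eq_one_iff φ φ.injective]
  · rintro ⟨θ, h1, h2⟩
    have hk : (AlgEquiv.restrictNormalHom L : (K ≃ₐ[ℚ] K) →* (L ≃ₐ[ℚ] L)).ker = θ.ker := by
      ext g
      rw [MonoidHom.mem_ker, MonoidHom.mem_ker, hker, h2]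
    exact ⟨(QuotientGroup.quotientKerEquivOfSurjective _ hsurj).symm.trans
      ((QuotientGroup.quotientMulEquivOfEq hk).trans
        (QuotientGroup.quotientKerEquivOfSurjective _ h1))⟩

end closure

variable [IsGalois ℚ K] [IsCMField E] [IsCMField K]

omit [IsGalois ℚ K] [IsCMField E] [IsCMField K] in
lemma height_sum (Φ : Finset (E →ₐ[ℚ] K)) : heightFn Φ = ∑ ψ ∈ Φ, a0 ψ Φ := by
  funext g
  rw [Finset.sum_apply]
  rfl

/-- **Octic fields with a Galois real subfield.** -/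
theorem height_galois (hE : Module.finrank ℚ E = 8) (hG : IsGalois ℚ (maximalRealSubfield E))
    {Φ : Finset (E →ₐ[ℚ] K)} (hΦ : IsCMType Φ) : heightFn Φ ∈ avgSpan K ⊔ abSpan K := by
  by_cases hA : ∀ a : E ≃ₐ[ℚ] E, a ^ 4 = 1
  · refine Submodule.mem_sup_left (height_mem_avgSpan (fun ψ θ h => range_eq_of_linked ψ θ h)
      (fun a => Or.inr fun a' ha' => ?_) hΦ)
    rcases gen_of_exponent (Or.inl (hA a)) ha' with h1 | h1
    · left; rw [h1]
    · right; rw [h1]
  · push Not at hA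
    obtain ⟨a, ha⟩ := hA
    have hdvd := card_aut_dvd (F := E)
    rw [hE] at hdvd
    have h1 : orderOf a ∣ 8 := (orderOf_dvd_natCard a).trans hdvd
    have h2 : ¬ orderOf a ∣ 4 := fun h => ha (orderOf_dvd_iff_pow_eq_one.1 h)
    have h3 : orderOf a = 8 := by
      have h4 : orderOf a ≤ 8 := Nat.le_of_dvd (by norm_num) h1
      interval_cases h : orderOf a <;> first | rfl | (exfalso; revert h1 h2; decide)
    have h5 : Nat.card (E ≃ₐ[ℚ] E) = 8 := by
      refine Nat.dvd_antisymm hdvd ?_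
      rw [← h3]
      exact orderOf_dvd_natCard a
    have hgal : IsGalois ℚ E := by
      refine IsGalois.of_card_aut_eq_finrank ℚ E ?_
      rw [h5, hE]
    have hcyc : IsCyclic (E ≃ₐ[ℚ] E) := isCyclic_of_orderOf_eq_card a (by rw [h3, h5])
    have hcomm : ∀ a b : E ≃ₐ[ℚ] E, a * b = b * a := by
      intro x y
      obtain ⟨g, hg⟩ := hcyc
      obtain ⟨m, rfl⟩ := Subgroup.mem_zpowers_iff.1 (hg x)
      obtain ⟨n, rfl⟩ := Subgroup.mem_zpowers_iff.1 (hg y)
      exact (Commute.refl g).zpow_zpow m n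
    have hmc : IsMulCommutative (E ≃ₐ[ℚ] E) := ⟨⟨hcomm⟩⟩
    have hab : IsAbelianGalois ℚ E := { }
    rw [height_sum]
    refine Submodule.mem_sup_right (Submodule.sum_mem _ fun ψ _ => Submodule.subset_span ?_)
    exact ⟨E, inferInstance, inferInstance, hab, ψ, Φ, hΦ, rfl⟩

/-- **All octic fields without dihedral closure.** -/
theorem height_octic (hE : Module.finrank ℚ E = 8) (hno : ¬ DihClosure E K)
    (ψ₀ : E →ₐ[ℚ] K) {Φ : Finset (E →ₐ[ℚ] K)} (hΦ : IsCMType Φ) :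
    heightFn Φ ∈ avgSpan K ⊔ abSpan K := by
  have hF4 : Module.finrank ℚ (maximalRealSubfield E) = 4 := by
    have := finrank_real (E := E)
    omega
  have hFX : Fintype (E →ₐ[ℚ] K) := Fintype.ofFinite _
  have hX : Fintype.card (E →ₐ[ℚ] K) = 8 := by
    rw [← Nat.card_eq_fintype_card, card_emb ψ₀, hE]
  rcases quartic_cases hF4 (res ψ₀) with hG | h2 | ⟨st, s1, s2, s3, s4, s5⟩
  · exact height_galois hE hG hΦ
  · exact Submodule.mem_sup_left (height_main ⟨ψ₀⟩ h2 (Or.inl (by rw [hF4]; norm_num)) hΦ)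
  · have hq : Quart (conjugation K) (res : (E →ₐ[ℚ] K) → (maximalRealSubfield E →ₐ[ℚ] K)) st := by
      refine ⟨fun g x => rfl, fun x y => ⟨fun h => eq_or_of_res h, ?_⟩, s1, s2, s3, ?_, s4, s5⟩
      · rintro (h | h)
        · rw [h]
        · rw [h, res_conj]
      · intro σ τ
        obtain ⟨g, hg⟩ := Pool.Agent.Q11.CZ.exists_lift (K := K) σ τ
        exact ⟨g, hg⟩
    refine Submodule.mem_sup_left (height_mem hΦ (fun x y g g' hgg => ?_))
    refine hq.heights Pool.Agent.Q11.CZ.conj_comm Pool.Agent.Q11.CZ.conj_mul_self conj_free hX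
      ?_ x y g g' hgg
    rintro ⟨v, hv, hadj⟩
    apply hno
    rw [dihClosure_iff]
    obtain ⟨θ, hθ⟩ := hv.exists_hom
    obtain ⟨g, hg1, hg2⟩ := s4 (res (v 0)) (res (v 1)) hadj.1 hadj.2
    have hg1' : res (g • v 0) = res (v 0) := hg1
    have hg2' : res (g • v 1) = st (res (v 1)) := hg2
    have htr : ∀ x y : E →ₐ[ℚ] K, ∃ g : K ≃ₐ[ℚ] K, g • x = y := by
      intro x y
      obtain ⟨g, hg⟩ := Pool.Agent.Q11.CZ.exists_lift (K := K) x y
      exact ⟨g, hg⟩
    obtain ⟨σ, hσ1, hσ2⟩ : ∃ σ : K ≃ₐ[ℚ] K, σ • v 0 = v 0 ∧ res (σ • v 1) = st (res (v 1)) := by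
      rcases eq_or_of_res hg1'.symm with h | h
      · exact ⟨g, h, hg2'⟩
      · refine ⟨conjugation K * g, ?_, ?_⟩
        · rw [mul_smul, h, ← mul_smul]
          have : conjugation K * conjugation K = 1 := Pool.Agent.Q11.CZ.conj_mul_self
          rw [this, one_smul]
        · rw [mul_smul, res_conj, hg2']
    refine ⟨θ, Octagon.surj hθ hv.bij htr hσ1 (fun h => ?_), fun g => Octagon.ker hθ hv.bij g⟩
    rw [h] at hσ2
    exact s3 _ hσ2.symm

/-- the number of elements of a CM type -/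
lemma half_card {X G : Type} [Group G] [Fintype X] [MulAction G X] {c : G} {Φ : Finset X}
    (hΦ : Pool.Agent.Q11.CZ.IsHalf c Φ) : 2 * Φ.card = Fintype.card X := by
  have h1 : Φᶜ.card = Φ.card := by
    refine Finset.card_bijective (fun x => c⁻¹ • x) (MulAction.bijective c⁻¹) (fun x => ?_)
    rw [Finset.mem_compl]
    have := hΦ (c⁻¹ • x)
    rw [smul_inv_smul] at this
    tauto
  have h2 := Finset.card_add_card_compl Φ
  omega

/-- there is a CM type -/
lemma exists_type : ∃ Φ : Finset (E →ₐ[ℚ] K), IsCMType Φ := by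
  have hF : Fintype (E →ₐ[ℚ] K) := Fintype.ofFinite _
  obtain ⟨Φ, hΦ⟩ := Pool.Agent.Q11.CZ.exists_half (X := E →ₐ[ℚ] K)
    (Pool.Agent.Q11.CZ.conj_mul_self (K := K)) conj_free
  rw [Pool.Agent.Q11.CZ.mem_halves] at hΦ
  exact ⟨Φ, hΦ⟩

/-- the structure of a dihedral octic field -/
theorem exists_dih (hE : Module.finrank ℚ E = 8) (hd : DihClosure E K) (ψ₀ : E →ₐ[ℚ] K)
    [Fintype (E →ₐ[ℚ] K)] :
    ∃ θ : (K ≃ₐ[ℚ] K) →* DihedralGroup 8, Dih (conjugation K) (E →ₐ[ℚ] K) θ := by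
  obtain ⟨θ, h1, h2⟩ := dihClosure_iff.1 hd
  refine ⟨θ, h1, h2, ?_, ?_, Pool.Agent.Q11.CZ.conj_comm, Pool.Agent.Q11.CZ.conj_mul_self,
    conj_free⟩
  · rw [← Nat.card_eq_fintype_card, card_emb ψ₀, hE]
  · intro x y
    obtain ⟨g, hg⟩ := Pool.Agent.Q11.CZ.exists_lift (K := K) x y
    exact ⟨g, hg⟩

/-- **Dihedral octic fields: no CM type.** -/
theorem not_mem_octic (hE : Module.finrank ℚ E = 8) (hd : DihClosure E K)
    (ψ₀ : E →ₐ[ℚ] K) {Φ : Finset (E →ₐ[ℚ] K)} (hΦ : IsCMType Φ) :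
    heightFn Φ ∉ avgSpan K ⊔ abSpan K := by
  intro hmem
  have hFX : Fintype (E →ₐ[ℚ] K) := Fintype.ofFinite _
  have hne : Nonempty (E →ₐ[ℚ] K) := ⟨ψ₀⟩
  obtain ⟨θ, h⟩ := exists_dih hE hd ψ₀
  have hc : Φ.card = 4 := by
    have := half_card (isHalf hΦ)
    rw [h.card] at this
    omega
  refine h.not_twist (isHalf hΦ) hc ?_
  have := twist_of_mem hmem
  rwa [heightFn_eq] at this

/-- **Dihedral octic fields: two CM types.** -/
theorem pair_octic (hE : Module.finrank ℚ E = 8) (hd : DihClosure E K)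
    (ψ₀ : E →ₐ[ℚ] K) {Φ Φ' : Finset (E →ₐ[ℚ] K)} (hΦ : IsCMType Φ) (hΦ' : IsCMType Φ') :
    heightFn Φ - heightFn Φ' ∈ avgSpan K ∨ heightFn Φ + heightFn Φ' ∈ avgSpan K := by
  have hFX : Fintype (E →ₐ[ℚ] K) := Fintype.ofFinite _
  have hne : Nonempty (E →ₐ[ℚ] K) := ⟨ψ₀⟩
  obtain ⟨θ, h⟩ := exists_dih hE hd ψ₀
  have hc : ∀ {Φ : Finset (E →ₐ[ℚ] K)}, IsCMType Φ → Φ.card = 4 := by
    intro Φ hΦ
    have := half_card (isHalf hΦ)
    rw [h.card] at this
    omega
  obtain ⟨a1, s, a2⟩ := height_cm hΦ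
  obtain ⟨b1, u, b2⟩ := height_cm hΦ'
  rcases h.zinv_pair (isHalf hΦ) (hc hΦ) (isHalf hΦ') (hc hΦ') with h1 | h1
  · left
    refine ((result K).1 _).mpr ⟨⟨fun g k => ?_, s - u, fun g => ?_⟩, ?_⟩
    · rw [Pi.sub_apply, Pi.sub_apply, a1, b1]
    · rw [Pi.sub_apply, Pi.sub_apply]
      linear_combination a2 g - b2 g
    · intro g g' hgg
      have := h1 g g' hgg
      rw [Pi.sub_apply, Pi.sub_apply, heightFn_eq, heightFn_eq]
      exact this
  · right
    refine ((result K).1 _).mpr ⟨⟨fun g k => ?_, s + u, fun g => ?_⟩, ?_⟩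
    · rw [Pi.add_apply, Pi.add_apply, a1, b1]
    · rw [Pi.add_apply, Pi.add_apply]
      linear_combination a2 g + b2 g
    · intro g g' hgg
      have := h1 g g' hgg
      rw [Pi.add_apply, Pi.add_apply, heightFn_eq, heightFn_eq]
      exact this

end Pool.Agent.V7H4.OC
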